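import Pool.Agent.W903.Rig.Nice2

/-!
# The inverse of the permutation, for a class with the closure properties
-/

namespace Pool.Agent.W903.Rig

open Equiv Pool.Agent.NPC Pool.Agent.NPC.PIso Pool.Agent.W903.GP

/-- boolean tests -/
theorem CP.dec {C : Set (List Bool) → Prop} (hC : Nice2 C) {α : Type} [TEnc α] [TDec α]
    {P : α → Prop} [DecidablePred P] (h : Pool.Agent.NPC.Poly (fun a => decide (P a))) :
    CP C P :=
  CP.congr (CP.poly hC.toNice h) fun a => decide_eq_true_iff

section

variable {t : Perm (List Bool)} {gr gt : List Bool → List Bool}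
  (hlen : ∀ x, (t x).length = x.length) (h0 : ∀ x, x.length < 3 → t x = x)
  (hr : ∀ x, gr (t x) = t (rotF x)) (ht : ∀ x, gt (t x) = t (tstF x))

/-- the transcript condition -/
def Trn (gr gt : List Bool → List Bool) (p : List Bool × List Bool)
    (Z : List (List Bool) × List (List Bool)) : Prop :=
  Z.1.getD 0 [] = p.1 ∧ ∀ i < p.1.length, Z.1.getD (i + 1) [] = gr (Z.1.getD i []) ∧
    Z.2.getD i [] = gt (Z.1.getD i []) ∧
    p.2.getD i false = decide (Z.2.getD i [] ≠ Z.1.getD i [])

theorem trn_sound {p : List Bool × List Bool} {Z : List (List Bool) × List (List Bool)}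
    (h : Trn gr gt p Z) (hl : p.2.length = p.1.length) : p.2 = decS gr gt p.1 := by
  obtain ⟨h1, h2⟩ := h
  have key : ∀ i ≤ p.1.length, Z.1.getD i [] = gr^[i] p.1 := by
    intro i
    induction i with
    | zero => intro _; exact h1
    | succ i ih =>
      intro hi
      rw [(h2 i (by omega)).1, ih (by omega), Function.iterate_succ_apply']
  apply List.ext_getElem
  · unfold decS
    rw [List.length_map, List.length_range, hl]
  · intro i hi1 hi2
    have hi : i < p.1.length := by omega
    obtain ⟨_, a2, a3⟩ := h2 i hi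
    rw [List.getD_eq_getElem _ _ hi1] at a3
    rw [a3, a2, key i hi.le]
    unfold decS
    rw [List.getElem_map, List.getElem_range]

/-- the transcript -/
def theZ (gr gt : List Bool → List Bool) (y : List Bool) :
    List (List Bool) × List (List Bool) :=
  ((List.range (y.length + 1)).map fun i => gr^[i] y,
    (List.range y.length).map fun i => gt (gr^[i] y))

theorem theZ_trn (y : List Bool) : Trn gr gt (y, decS gr gt y) (theZ gr gt y) := by
  have a : ∀ i ≤ y.length, (theZ gr gt y).1.getD i [] = gr^[i] y := by
    intro i hi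
    have h : i < ((List.range (y.length + 1)).map fun i => gr^[i] y).length := by
      rw [List.length_map, List.length_range]; omega
    change ((List.range (y.length + 1)).map fun i => gr^[i] y).getD i [] = _
    rw [List.getD_eq_getElem _ _ h, List.getElem_map, List.getElem_range]
  have b : ∀ i < y.length, (theZ gr gt y).2.getD i [] = gt (gr^[i] y) := by
    intro i hi
    have h : i < ((List.range y.length).map fun i => gt (gr^[i] y)).length := by
      rw [List.length_map, List.length_range]; omega
    change ((List.range y.length).map fun i => gt (gr^[i] y)).getD i [] = _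
    rw [List.getD_eq_getElem _ _ h, List.getElem_map, List.getElem_range]
  refine ⟨a 0 (Nat.zero_le _), fun i hi => ⟨?_, ?_, ?_⟩⟩
  · rw [a (i + 1) (by exact hi), a i (le_of_lt hi), Function.iterate_succ_apply']
  · rw [b i hi, a i (le_of_lt hi)]
  · rw [b i hi, a i (le_of_lt hi)]
    have h : i < (decS gr gt y).length := by
      unfold decS
      rw [List.length_map, List.length_range]; exact hi
    change (decS gr gt y).getD i false = _
    rw [List.getD_eq_getElem _ _ h]
    unfold decS
    rw [List.getElem_map, List.getElem_range]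

theorem theZ_sz (hgr : ∀ y, (gr y).length = y.length) (hgt : ∀ y, (gt y).length = y.length)
    (y : List Bool) : sz (theZ gr gt y) ≤
      (y.length + 1) * (4 * y.length + 2) + 1 + ((y.length) * (4 * y.length + 2) + 1) + 1 := by
  unfold theZ
  rw [sz_pair]
  have h1 := sz_le_length_mul ((List.range (y.length + 1)).map fun i => gr^[i] y)
    (4 * y.length + 1) (by
      intro a ha
      obtain ⟨i, _, rfl⟩ := List.mem_map.1 ha
      have := sz_listBool_le (gr^[i] y)
      rw [iter_length hgr] at this
      exact this)
  have h2 := sz_le_length_mul ((List.range y.length).map fun i => gt (gr^[i] y))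
    (4 * y.length + 1) (by
      intro a ha
      obtain ⟨i, _, rfl⟩ := List.mem_map.1 ha
      have := sz_listBool_le (gt (gr^[i] y))
      rw [hgt, iter_length hgr] at this
      exact this)
  rw [List.length_map, List.length_range] at h1 h2
  rw [show 4 * y.length + 1 + 1 = 4 * y.length + 2 from rfl] at h1 h2
  omega

include hlen h0 hr ht in
/-- **The inverse of the permutation.** -/
theorem c_symm {C : Set (List Bool) → Prop} (hC : Nice2 C) (cr : C (graph gr))
    (ct : C (graph gt)) : C (graph ⇑t.symm) := by
  have hgr := gr_length hlen hr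
  have hgt : ∀ y, (gt y).length = y.length := by
    intro y
    obtain ⟨x, rfl⟩ := t.surjective y
    rw [ht, hlen, hlen, tstF_length]
  -- polynomial-time ingredients
  have pZ1 : Pool.Agent.NPC.Poly (fun r : ((List Bool × List Bool) ×
      (List (List Bool) × List (List Bool))) × ℕ => r.1.2.1.getD r.2 []) :=
    Poly.getD (Poly.fst (Poly.snd (Poly.fst Pool.Agent.NPC.Poly.id)))
      (Poly.snd Pool.Agent.NPC.Poly.id) (pconst [])
  have pZ1' : Pool.Agent.NPC.Poly (fun r : ((List Bool × List Bool) ×
      (List (List Bool) × List (List Bool))) × ℕ => r.1.2.1.getD (r.2 + 1) []) :=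
    Poly.getD (Poly.fst (Poly.snd (Poly.fst Pool.Agent.NPC.Poly.id)))
      (Poly.add (Poly.snd Pool.Agent.NPC.Poly.id) (pconst 1)) (pconst [])
  have pZ2 : Pool.Agent.NPC.Poly (fun r : ((List Bool × List Bool) ×
      (List (List Bool) × List (List Bool))) × ℕ => r.1.2.2.getD r.2 []) :=
    Poly.getD (Poly.snd (Poly.snd (Poly.fst Pool.Agent.NPC.Poly.id)))
      (Poly.snd Pool.Agent.NPC.Poly.id) (pconst [])
  have pX : Pool.Agent.NPC.Poly (fun r : ((List Bool × List Bool) ×
      (List (List Bool) × List (List Bool))) × ℕ => r.1.1.2.getD r.2 false) :=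
    Poly.getD (Poly.snd (Poly.fst (Poly.fst Pool.Agent.NPC.Poly.id)))
      (Poly.snd Pool.Agent.NPC.Poly.id) (pconst false)
  have b1 : CP C (fun r : ((List Bool × List Bool) ×
      (List (List Bool) × List (List Bool))) × ℕ =>
      r.1.2.1.getD (r.2 + 1) [] = gr (r.1.2.1.getD r.2 [])) :=
    CP.graph hC.toNice cr pZ1 pZ1'
  have b2 : CP C (fun r : ((List Bool × List Bool) ×
      (List (List Bool) × List (List Bool))) × ℕ =>
      r.1.2.2.getD r.2 [] = gt (r.1.2.1.getD r.2 [])) :=
    CP.graph hC.toNice ct pZ1 pZ2
  have b3 : CP C (fun r : ((List Bool × List Bool) ×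
      (List (List Bool) × List (List Bool))) × ℕ =>
      r.1.1.2.getD r.2 false = decide (r.1.2.2.getD r.2 [] ≠ r.1.2.1.getD r.2 [])) :=
    CP.dec hC (Poly.decide_eq pX (Poly.decide_not (Poly.decide_eq pZ2 pZ1)))
  have b4 : CP C (fun q : (List Bool × List Bool) × (List (List Bool) × List (List Bool)) =>
      ∀ i < q.1.1.length, q.2.1.getD (i + 1) [] = gr (q.2.1.getD i []) ∧
        q.2.2.getD i [] = gt (q.2.1.getD i []) ∧
        q.1.2.getD i false = decide (q.2.2.getD i [] ≠ q.2.1.getD i [])) :=
    CP.all hC (CP.and hC.toNice b1 (CP.and hC.toNice b2 b3))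
      (N := fun q : (List Bool × List Bool) × (List (List Bool) × List (List Bool)) =>
        q.1.1.length) (UPoly.length (Poly.fst (Poly.fst Pool.Agent.NPC.Poly.id)))
  have b5 : CP C (fun q : (List Bool × List Bool) × (List (List Bool) × List (List Bool)) =>
      q.2.1.getD 0 [] = q.1.1) :=
    CP.dec hC (Poly.decide_eq (Poly.getD (Poly.fst (Poly.snd Pool.Agent.NPC.Poly.id)) (pconst 0)
      (pconst [])) (Poly.fst (Poly.fst Pool.Agent.NPC.Poly.id)))
  have b6 : CP C (fun q : (List Bool × List Bool) × (List (List Bool) × List (List Bool)) =>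
      Trn gr gt q.1 q.2) := CP.and hC.toNice b5 b4
  have b7 := CP.exT hC b6 ((Polynomial.X + 1) * (4 * Polynomial.X + 2) + 1 +
    (Polynomial.X * (4 * Polynomial.X + 2) + 1) + 1)
  have pl1 : Pool.Agent.NPC.Poly (fun p : List Bool × List Bool => p.1.length) :=
    Poly.length (Poly.fst Pool.Agent.NPC.Poly.id)
  have pl2 : Pool.Agent.NPC.Poly (fun p : List Bool × List Bool => p.2.length) :=
    Poly.length (Poly.snd Pool.Agent.NPC.Poly.id)
  have b8 : CP C (fun p : List Bool × List Bool => 3 ≤ p.1.length ∧ p.2.length = p.1.length) :=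
    CP.dec hC (Poly.decide_and (Poly.decide_le (pconst 3) pl1) (Poly.decide_eq pl2 pl1))
  have b9 : CP C (fun p : List Bool × List Bool => p.1.length < 3 ∧ p.2 = p.1) :=
    CP.dec hC (Poly.decide_and (Poly.decide_lt pl1 (pconst 3))
      (Poly.decide_eq (Poly.snd Pool.Agent.NPC.Poly.id) (Poly.fst Pool.Agent.NPC.Poly.id)))
  have b10 : CP C (fun p : List Bool × List Bool => p.2 = t.symm p.1) := by
    refine CP.congr (CP.or hC b9 (CP.and hC.toNice b8 b7)) fun p => ?_
    rw [symm_eq hlen h0 hr ht p.1]
    constructor
    · rintro (⟨h1, h2⟩ | ⟨⟨h1, h2⟩, Z, _, h3⟩)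
      · rw [if_neg (by omega)]; exact h2
      · rw [if_pos h1]; exact trn_sound h3 h2
    · intro h
      by_cases h3 : 3 ≤ p.1.length
      · rw [if_pos h3] at h
        have hl : p.2.length = p.1.length := by
          rw [h]
          unfold decS
          rw [List.length_map, List.length_range]
        refine Or.inr ⟨⟨h3, hl⟩, theZ gr gt p.1, ?_, ?_⟩
        · refine (theZ_sz hgr hgt p.1).trans ?_
          have h4 : p.1.length ≤ sz p := by
            have h5 := sz_listBool_ge p.1
            have h6 : sz p = sz p.1 + sz p.2 + 1 := sz_pair p.1 p.2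
            omega
          have h7 := eval_mono ((Polynomial.X + 1) * (4 * Polynomial.X + 2) + 1 +
            (Polynomial.X * (4 * Polynomial.X + 2) + 1) + 1) h4
          simp only [Polynomial.eval_add, Polynomial.eval_mul, Polynomial.eval_X,
            Polynomial.eval_one, Polynomial.eval_ofNat] at h7 ⊢
          exact h7
        · have e : p = (p.1, decS gr gt p.1) := by rw [← h]
          rw [e]
          exact theZ_trn p.1
      · rw [if_neg h3] at h
        exact Or.inl ⟨by omega, h⟩
  refine c_graph hC.toNice ?_
  exact CP.map hC b10 (g := fun z : List Bool => unpair z) poly_unpair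

end

end Pool.Agent.W903.Rig
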