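import Pool.Agent.W903.Rig.Flip

/-!
# Collapses of the hierarchy
-/

namespace Pool.Agent.W903.Rig

open Equiv Pool.Agent.NPC Pool.Agent.NPC.PIso Pool.Agent.W903.GP

/-- if a level is closed under complementation, the hierarchy collapses to it -/
theorem sigma_collapse {k : ℕ} (h : ∀ L, SigmaP (k + 1) L → SigmaP (k + 1) Lᶜ) (j : ℕ) :
    ∀ L, SigmaP j L → SigmaP (k + 1) L := by
  induction j with
  | zero => exact fun L hL => sigma_mono (Nat.zero_le _) hL
  | succ j ih =>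
    rintro L ⟨M, p, hM, hL⟩
    have h1 := sigma_ex k p (h _ (ih M hM))
    have e : L = {x | ∃ w : List Bool, w.length ≤ p.eval x.length ∧ pairBits x w ∈ Mᶜ} :=
      Set.ext fun x => hL x
    rw [e]
    exact h1

theorem ph_compl {L : Set (List Bool)} (h : InPH L) : InPH Lᶜ := by
  obtain ⟨k, h⟩ := h
  refine ⟨k + 1, _, 0, (sigma_props k).1 L u1 (poly_u1 pid) h, fun x => ?_⟩
  constructor
  · intro hx
    refine ⟨[], by simp, ?_⟩
    rw [Set.mem_preimage, u1_pair]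
    exact hx
  · rintro ⟨w, _, hn⟩
    rw [Set.mem_preimage, u1_pair] at hn
    exact hn

/-- `Σ_k` is closed under complementation if and only if `Σ_k ∩ Π_k` is the hierarchy -/
theorem sigma_iff (k : ℕ) : (∀ L, SigmaP (k + 1) L → SigmaP (k + 1) Lᶜ) ↔
    ∀ L, (SigmaP (k + 1) L ∧ SigmaP (k + 1) Lᶜ) ↔ (InPH L ∧ InPH Lᶜ) := by
  constructor
  · intro h L
    constructor
    · rintro ⟨h1, h2⟩
      exact ⟨⟨_, h1⟩, ⟨_, h2⟩⟩
    · rintro ⟨⟨j, hj⟩, _⟩
      have h1 := sigma_collapse h j L hj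
      exact ⟨h1, h _ h1⟩
  · intro h L hL
    exact ((h L).2 ⟨⟨_, hL⟩, ph_compl ⟨_, hL⟩⟩).2

theorem np_iff : (∀ L, InNP L ↔ InNP Lᶜ) ↔
    ∀ L, (InNP L ∧ InNP Lᶜ) ↔ (InPH L ∧ InPH Lᶜ) := by
  have e : InNP = SigmaP 1 := funext fun L => propext inNP_iff
  rw [e, ← sigma_iff 0]
  constructor
  · intro h L hL; exact (h L).1 hL
  · intro h L
    refine ⟨h L, fun hL => ?_⟩
    have := h _ hL
    rwa [compl_compl] at this

theorem np_iff2 : (∀ L, InNP L ↔ InNP Lᶜ) ↔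
    ∀ L, (InNP L ∧ InNP Lᶜ) ↔ (SigmaP 2 L ∧ SigmaP 2 Lᶜ) := by
  have e : InNP = SigmaP 1 := funext fun L => propext inNP_iff
  rw [e]
  constructor
  · intro h L
    have hc : ∀ L, SigmaP (0 + 1) L → SigmaP (0 + 1) Lᶜ := fun L hL => (h L).1 hL
    constructor
    · rintro ⟨h1, h2⟩
      exact ⟨sigma_succ h1, sigma_succ h2⟩
    · rintro ⟨h1, h2⟩
      exact ⟨sigma_collapse hc 2 L h1, sigma_collapse hc 2 _ h2⟩
  · intro h L
    have hc : ∀ L, SigmaP 1 L → SigmaP 1 Lᶜ := by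
      intro L hL
      refine ((h L).2 ⟨sigma_succ hL, ?_⟩).2
      refine ⟨_, 0, (sigma_props 1).1 L u1 (poly_u1 pid) hL, fun x => ?_⟩
      constructor
      · intro hx
        refine ⟨[], by simp, ?_⟩
        rw [Set.mem_preimage, u1_pair]
        exact hx
      · rintro ⟨w, _, hn⟩
        rw [Set.mem_preimage, u1_pair] at hn
        exact hn
    refine ⟨hc L, fun hL => ?_⟩
    have := hc _ hL
    rwa [compl_compl] at this

end Pool.Agent.W903.Rig
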