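import Pool.Agent.W903.Rig.Rigid

/-!
# The groups determine the classes
-/

namespace Pool.Agent.W903.Rig

open Equiv Pool.Agent.NPC Pool.Agent.NPC.PIso Pool.Agent.W903.GP

/-- complement the first letter -/
def fl (y : List Bool) : List Bool := (!(y.getD 0 false)) :: y.tail

theorem poly_fl : Pool.Agent.NPC.Poly fl :=
  Poly.cons (Poly.not (Poly.getD pid (pconst 0) (pconst false))) (Poly.tail pid)

open Classical in
/-- complement the first letter if the rest is in the language -/
noncomputable def flipF (L : Set (List Bool)) (y : List Bool) : List Bool :=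
  if 3 ≤ y.length ∧ y.tail ∈ L then fl y else y

theorem fl_length {y : List Bool} (h : 3 ≤ y.length) : (fl y).length = y.length := by
  unfold fl
  rw [List.length_cons, List.length_tail]
  omega

theorem fl_fl {y : List Bool} (h : 3 ≤ y.length) : fl (fl y) = y := by
  cases y with
  | nil => simp at h
  | cons b x => simp [fl]

theorem flipF_length (L : Set (List Bool)) (y : List Bool) : (flipF L y).length = y.length := by
  unfold flipF
  split_ifs with h
  · exact fl_length h.1
  · rfl

theorem flipF_invol (L : Set (List Bool)) : Function.Involutive (flipF L) := by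
  intro y
  by_cases h : 3 ≤ y.length ∧ y.tail ∈ L
  · have e : flipF L y = fl y := if_pos h
    rw [e]
    unfold flipF
    rw [if_pos ⟨by rw [fl_length h.1]; exact h.1, h.2⟩, fl_fl h.1]
  · have e : flipF L y = y := if_neg h
    rw [e, e]

/-- the permutation of a language -/
noncomputable def flipE (L : Set (List Bool)) : Perm (List Bool) := (flipF_invol L).toPerm

theorem flipE_apply (L : Set (List Bool)) (y : List Bool) : flipE L y = flipF L y := rfl

theorem LP_flip (L : Set (List Bool)) : LP (flipE L) := by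
  refine ⟨flipF_length L, fun x hx => ?_⟩
  rw [flipE_apply]
  unfold flipF
  rw [if_neg (by omega)]

theorem mem_iff_flip {L : Set (List Bool)} {x : List Bool} (hx : 2 ≤ x.length) :
    x ∈ L ↔ true :: x = flipE L (false :: x) := by
  rw [flipE_apply]
  unfold flipF
  by_cases h : x ∈ L
  · rw [if_pos ⟨by rw [List.length_cons]; omega, h⟩]
    simp [h, fl]
  · rw [if_neg (fun hc => h hc.2)]
    simp [h]

theorem not_mem_iff_flip {L : Set (List Bool)} {x : List Bool} (hx : 2 ≤ x.length) :
    x ∉ L ↔ false :: x = flipE L (false :: x) := by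
  rw [flipE_apply]
  unfold flipF
  by_cases h : x ∈ L
  · rw [if_pos ⟨by rw [List.length_cons]; omega, h⟩]
    simp [h, fl]
  · rw [if_neg (fun hc => h hc.2)]
    simp [h]

/-- a table for the strings of length at most one -/
theorem small_inP (L : Set (List Bool)) : InP {x | x.length < 2 ∧ x ∈ L} := by
  classical
  have h : Pool.Agent.NPC.Poly (fun x : List Bool =>
      if x = [] then decide ([] ∈ L) else if x = [true] then decide ([true] ∈ L) else
        if x = [false] then decide ([false] ∈ L) else false) :=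
    Poly.ite (Poly.decide_eq pid (pconst [])) (pconst _)
      (Poly.ite (Poly.decide_eq pid (pconst [true])) (pconst _)
        (Poly.ite (Poly.decide_eq pid (pconst [false])) (pconst _) (pconst false)))
  refine inP_iff.2 ⟨_, h, fun x => ?_⟩
  match x with
  | [] => simp
  | [true] => simp
  | [false] => simp
  | a :: b :: l => simp

variable {C D : Set (List Bool) → Prop}

/-- reading a language off the graph of its permutation -/
theorem c_of_graph (hC : Nice2 C) {L : Set (List Bool)} {f : List Bool → List Bool}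
    (b : Bool) (h : C (graph f)) (hL : ∀ x, 2 ≤ x.length → (x ∈ L ↔ b :: x = f (false :: x))) :
    C L := by
  have h1 : CP C (fun x : List Bool => b :: x = f (false :: x)) :=
    CP.graph hC.toNice h (Poly.cons (pconst false) pid) (Poly.cons (pconst b) pid)
  have h2 : CP C (fun x : List Bool => 2 ≤ x.length) :=
    CP.dec hC (Poly.decide_le (pconst 2) (Poly.length pid))
  have h3 : CP C (fun x : List Bool => x.length < 2 ∧ x ∈ L) :=
    CP.of_raw hC.toNice (hC.ofP (small_inP L))
  refine CP.to_raw hC.toNice (P := fun x => x ∈ L) ?_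
  refine CP.congr (CP.or hC h3 (CP.and hC.toNice h2 h1)) fun x => ?_
  by_cases hx : 2 ≤ x.length
  · have : ¬ x.length < 2 := by omega
    simp [hL x hx, hx]
  · have : x.length < 2 := by omega
    simp [this]

theorem mem_of_flip (hC : Nice2 C) {L : Set (List Bool)} (h : C (graph ⇑(flipE L))) :
    C L ∧ C Lᶜ :=
  ⟨c_of_graph hC true h fun _ hx => mem_iff_flip hx,
    c_of_graph hC false h fun _ hx => not_mem_iff_flip hx⟩

theorem flip_of_mem (hC : Nice2 C) {L : Set (List Bool)} (h1 : C L) (h2 : C Lᶜ) :
    C (graph ⇑(flipE L)) := by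
  refine c_graph hC.toNice ?_
  have pt : Pool.Agent.NPC.Poly (fun z : List Bool => (unpair z).1.tail) :=
    Poly.tail (poly_u1 pid)
  have a1 : CP C (fun z : List Bool => (unpair z).1.tail ∈ L) :=
    CP.map hC (CP.of_raw hC.toNice (P := fun x => x ∈ L) h1) pt
  have a2 : CP C (fun z : List Bool => (unpair z).1.tail ∉ L) :=
    CP.map hC (CP.of_raw hC.toNice (P := fun x => x ∉ L) h2) pt
  have a3 : CP C (fun z : List Bool => 3 ≤ (unpair z).1.length ∧ (unpair z).2 = fl (unpair z).1) :=
    CP.dec hC (Poly.decide_and (Poly.decide_le (pconst 3) (Poly.length (poly_u1 pid)))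
      (Poly.decide_eq (poly_u2 pid) (poly_fl.comp (poly_u1 pid))))
  have a4 : CP C (fun z : List Bool => (unpair z).1.length < 3 ∧ (unpair z).2 = (unpair z).1) :=
    CP.dec hC (Poly.decide_and (Poly.decide_lt (Poly.length (poly_u1 pid)) (pconst 3))
      (Poly.decide_eq (poly_u2 pid) (poly_u1 pid)))
  have a5 : CP C (fun z : List Bool => (unpair z).2 = (unpair z).1) :=
    CP.dec hC (Poly.decide_eq (poly_u2 pid) (poly_u1 pid))
  refine CP.congr (CP.or hC (CP.and hC.toNice a1 a3) (CP.or hC a4 (CP.and hC.toNice a2 a5)))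
    fun z => ?_
  rw [flipE_apply]
  unfold flipF
  by_cases h3 : 3 ≤ (unpair z).1.length
  · by_cases h4 : (unpair z).1.tail ∈ L
    · rw [if_pos ⟨h3, h4⟩]
      have : ¬ (unpair z).1.length < 3 := by omega
      simp [h3, h4, this]
    · rw [if_neg (fun hc => h4 hc.2)]
      have : ¬ (unpair z).1.length < 3 := by omega
      simp [h4, this]
  · rw [if_neg (fun hc => h3 hc.1)]
    have : (unpair z).1.length < 3 := by omega
    constructor
    · rintro (⟨_, h, _⟩ | ⟨_, h⟩ | ⟨_, h⟩)
      · exact absurd h h3
      · exact h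
      · exact h
    · intro h
      exact Or.inr (Or.inl ⟨this, h⟩)

theorem flip_mem_RC (hC : Nice2 C) {L : Set (List Bool)} :
    flipE L ∈ RC C hC ↔ C L ∧ C Lᶜ :=
  ⟨fun h => mem_of_flip hC h.2, fun h => ⟨LP_flip L, flip_of_mem hC h.1 h.2⟩⟩

/-- the complement of a graph -/
theorem c_graph_compl (hC : Nice2 C) {f : List Bool → List Bool}
    (hlen : ∀ x, (f x).length = x.length) (h : C (graph f)) : C (graph f)ᶜ := by
  have h1 : CP C (fun z : List Bool => isPair z = false) :=
    CP.dec hC (Poly.decide_eq poly_isPair (pconst false))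
  have h2 : CP C (fun p : List Bool × List Bool => (unpair p.1).2 ≠ p.2) :=
    CP.dec hC (Poly.decide_not (Poly.decide_eq (poly_u2 (Poly.fst pid)) (Poly.snd pid)))
  have h3 : CP C (fun z : List Bool => (unpair z).2 ≠ f (unpair z).1) :=
    CP.subst hC.toNice h (ρ := Polynomial.X)
      (fun x => by rw [hlen, Polynomial.eval_X])
      (Q := fun z : List Bool => (unpair z).1) (P := fun z y => (unpair z).2 ≠ y)
      (poly_u1 pid) h2
  refine CP.to_raw hC.toNice (P := fun z => z ∈ (graph f)ᶜ) ?_
  refine CP.congr (CP.or hC h1 h3) fun z => ?_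
  rw [graph_eq, Set.mem_compl_iff, Set.mem_ofPred_eq, not_and_or, Bool.not_eq_true]

theorem RC_le_iff (hC : Nice2 C) (hD : Nice2 D) :
    RC C hC ≤ RC D hD ↔ ∀ L, C L → C Lᶜ → D L ∧ D Lᶜ := by
  constructor
  · intro h L h1 h2
    exact (flip_mem_RC hD).1 (h ((flip_mem_RC hC).2 ⟨h1, h2⟩))
  · intro h f hf
    exact ⟨hf.1, (h _ hf.2 (c_graph_compl hC hf.1.1 hf.2)).1⟩

theorem RC_eq_iff (hC : Nice2 C) (hD : Nice2 D) :
    RC C hC = RC D hD ↔ ∀ L, (C L ∧ C Lᶜ) ↔ (D L ∧ D Lᶜ) := by
  rw [le_antisymm_iff, RC_le_iff, RC_le_iff]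
  constructor
  · rintro ⟨h1, h2⟩ L
    exact ⟨fun h => h1 L h.1 h.2, fun h => h2 L h.1 h.2⟩
  · intro h
    exact ⟨fun L h1 h2 => (h L).1 ⟨h1, h2⟩, fun L h1 h2 => (h L).2 ⟨h1, h2⟩⟩

/-- functions all of whose bits are decidable in polynomial time -/
theorem poly_of_graph (hD : Nice2 D) (hP : ∀ L, D L → D Lᶜ → InP L) {f : List Bool → List Bool}
    (hlen : ∀ x, (f x).length = x.length) (h : D (graph f)) : Pool.Agent.NPC.Poly f := by
  have key : ∀ b : Bool, D {z | (f (unpair z).1).getD (unpair z).2.length false = b} := by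
    intro b
    have h2 : CP D (fun p : List Bool × List Bool =>
        p.2.getD (unpair p.1).2.length false = b) :=
      CP.dec hD (Poly.decide_eq (Poly.getD (Poly.snd pid) (Poly.length (poly_u2 (Poly.fst pid)))
        (pconst false)) (pconst b))
    refine CP.to_raw hD.toNice (P := fun z => (f (unpair z).1).getD (unpair z).2.length false = b)
      ?_
    exact CP.subst hD.toNice h (ρ := Polynomial.X)
      (fun x => by rw [hlen, Polynomial.eval_X])
      (Q := fun z : List Bool => (unpair z).1)
      (P := fun z y => y.getD (unpair z).2.length false = b)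
      (poly_u1 pid) h2
  have e : {z | (f (unpair z).1).getD (unpair z).2.length false = true}ᶜ =
      {z | (f (unpair z).1).getD (unpair z).2.length false = false} := by
    ext z
    rw [Set.mem_compl_iff, Set.mem_ofPred_eq, Set.mem_ofPred_eq, Bool.not_eq_true]
  obtain ⟨V, hV, hVL⟩ := hP _ (key true) (by rw [e]; exact key false)
  have hV' : Pool.Agent.NPC.Poly V := poly_iff.2 hV
  have h2 : Pool.Agent.NPC.Poly (fun x : List Bool => (List.range x.length).map
      (fun i => decide (V (pairBits x (x.take i)) = [true]))) := by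
    refine Pool.Agent.NPC.Poly.map (F := fun (x : List Bool) i => decide (V (pairBits x (x.take i)) = [true]))
      (Poly.range_length Pool.Agent.NPC.Poly.id) ?_
    refine Poly.decide_eq (hV'.comp (poly_pairBits (Poly.fst Pool.Agent.NPC.Poly.id) ?_))
      (pconst [true])
    exact Pool.Agent.NPC.Mix.T1.poly_take (Poly.fst Pool.Agent.NPC.Poly.id) (Poly.snd Pool.Agent.NPC.Poly.id)
  refine h2.congr fun x => ?_
  apply List.ext_getElem
  · simp [hlen]
  · intro i hi1 hi2
    have hi : i < x.length := by simpa using hi1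
    have e := hVL (pairBits x (x.take i))
    rw [Set.mem_ofPred_eq, unpair_pairBits] at e
    simp only [List.length_take] at e
    rw [min_eq_left hi.le, List.getD_eq_getElem _ _ hi2] at e
    simp only [List.getElem_map, List.getElem_range]
    by_cases hb : (f x)[i] = true
    · rw [hb]; simp [e.1 hb]
    · have hb' : (f x)[i] = false := by simpa using hb
      rw [hb']
      simp only [decide_eq_false_iff_not]
      intro h
      exact hb (e.2 h)

theorem flip_mem_RP {L : Set (List Bool)} : flipE L ∈ RP ↔ InP L := by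
  constructor
  · rintro ⟨_, h1, _⟩
    have hp : Pool.Agent.NPC.Poly ⇑(flipE L) := poly_iff.2 h1
    have h2 : Pool.Agent.NPC.Poly (fun x : List Bool =>
        decide (2 ≤ x.length ∧ true :: x = flipE L (false :: x))) :=
      Poly.decide_and (Poly.decide_le (pconst 2) (Poly.length pid))
        (Poly.decide_eq (Poly.cons (pconst true) pid)
          (hp.comp (Poly.cons (pconst false) pid)))
    have h3 := inP_union (small_inP L) (inP_iff.2 ⟨_, h2, fun x => Iff.rfl⟩ :
      InP {x | decide (2 ≤ x.length ∧ true :: x = flipE L (false :: x)) = true})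
    have e : L = {x | x.length < 2 ∧ x ∈ L} ∪
        {x | decide (2 ≤ x.length ∧ true :: x = flipE L (false :: x)) = true} := by
      ext x
      rw [Set.mem_union, Set.mem_ofPred_eq, Set.mem_ofPred_eq, decide_eq_true_iff]
      by_cases hx : 2 ≤ x.length
      · rw [← mem_iff_flip hx]
        have : ¬ x.length < 2 := by omega
        simp [hx, this]
      · have : x.length < 2 := by omega
        simp [this]
    rw [e]
    exact h3
  · intro h
    obtain ⟨d, hd, hL⟩ := inP_iff.1 h
    have h1 : Pool.Agent.NPC.Poly (fun y : List Bool =>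
        if 3 ≤ y.length ∧ d y.tail = true then fl y else y) := by
      refine Poly.ite (Poly.decide_and (Poly.decide_le (pconst 3) (Poly.length pid))
        (Poly.decide_bool (hd.comp (Poly.tail pid)))) poly_fl pid
    have h2 : Pool.Agent.NPC.Poly ⇑(flipE L) := by
      refine h1.congr fun y => ?_
      rw [flipE_apply]
      unfold flipF
      by_cases h3 : 3 ≤ y.length ∧ y.tail ∈ L
      · rw [if_pos h3, if_pos ⟨h3.1, (hL _).1 h3.2⟩]
      · rw [if_neg h3, if_neg (fun hc => h3 ⟨hc.1, (hL _).2 hc.2⟩)]
    exact ⟨LP_flip L, poly_iff.1 h2, poly_iff.1 h2⟩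

theorem RP_eq_iff (hD : Nice2 D) : RP = RC D hD ↔ ∀ L, InP L ↔ (D L ∧ D Lᶜ) := by
  constructor
  · intro h L
    rw [← flip_mem_RP, ← flip_mem_RC hD, h]
  · intro h
    refine le_antisymm (RP_le hD) fun f hf => ?_
    have hP : ∀ L, D L → D Lᶜ → InP L := fun L h1 h2 => (h L).2 ⟨h1, h2⟩
    exact ⟨hf.1, poly_iff.1 (poly_of_graph hD hP hf.1.1 hf.2),
      poly_iff.1 (poly_of_graph hD hP hf.1.inv.1 ((RC D hD).inv_mem hf).2)⟩

/-- **Two classes: the groups are isomorphic only if they are equal.** -/
theorem iso_iff (hC : Nice2 C) (hD : Nice2 D) :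
    Nonempty (RC C hC ≃* RC D hD) ↔ ∀ L, (C L ∧ C Lᶜ) ↔ (D L ∧ D Lᶜ) := by
  rw [← RC_eq_iff hC hD]
  constructor
  · rintro ⟨φ⟩
    exact (rigid_CC hC hD φ).1
  · intro h
    exact ⟨MulEquiv.subgroupCongr h⟩

theorem isoP_iff (hD : Nice2 D) :
    Nonempty (RP ≃* RC D hD) ↔ ∀ L, InP L ↔ (D L ∧ D Lᶜ) := by
  rw [← RP_eq_iff hD]
  constructor
  · rintro ⟨φ⟩
    exact rigid_PC hD φ
  · intro h
    exact ⟨MulEquiv.subgroupCongr h⟩

end Pool.Agent.W903.Rig
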