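import Pool.Agent.W903.Rig.CSymm

/-!
# The levels of the hierarchy, `NP` and `PSPACE` have the closure properties
-/

namespace Pool.Agent.W903.Rig

open Pool.Agent.NPC Pool.Agent.NPC.PIso Pool.Agent.W903.GP

theorem ones_eq {x : List Bool} {i : ℕ} (hi : i < x.length) :
    (x.take i).map (fun _ => true) = List.replicate i true := by
  rw [List.map_const', List.length_take, min_eq_left hi.le]

theorem poly_pairTake : Pool.Agent.NPC.Poly (fun p : List Bool × ℕ =>
    pairBits p.1 ((p.1.take p.2).map (fun _ => true))) := by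
  refine poly_pairBits (Poly.fst Pool.Agent.NPC.Poly.id) ?_
  exact Pool.Agent.NPC.Poly.map (F := fun _ _ => true)
    (Pool.Agent.NPC.Mix.T1.poly_take (Poly.fst Pool.Agent.NPC.Poly.id)
      (Poly.snd Pool.Agent.NPC.Poly.id)) (pconst true)

theorem inP_small {L : Set (List Bool)} (h : InP L) :
    InP {x | ∃ i < x.length, pairBits x (List.replicate i true) ∈ L} := by
  rw [inP_iff] at h ⊢
  obtain ⟨d, hd, h⟩ := h
  refine ⟨fun x => (List.range x.length).any fun i =>
    d (pairBits x ((x.take i).map (fun _ => true))), ?_, fun x => ?_⟩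
  · exact Poly.any (p := fun (x : List Bool) i =>
      d (pairBits x ((x.take i).map (fun _ => true)))) (Poly.range_length pid)
      (hd.comp poly_pairTake)
  · rw [List.any_eq_true]
    constructor
    · rintro ⟨i, hi, hL⟩
      exact ⟨i, List.mem_range.2 hi, by rw [ones_eq hi, ← h]; exact hL⟩
    · rintro ⟨i, hi, hL⟩
      rw [List.mem_range] at hi
      rw [ones_eq hi, ← h] at hL
      exact ⟨i, hi, hL⟩

/-- `w` consists of ones and is shorter than `x` -/
def ones (z : List Bool) : Bool :=
  decide (u2 z = (u2 z).map (fun _ => true)) && decide ((u2 z).length < (u1 z).length)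

theorem poly_ones : Pool.Agent.NPC.Poly ones :=
  Poly.and (Poly.decide_eq (poly_u2 pid) (Pool.Agent.NPC.Poly.map (F := fun _ _ => true)
    (poly_u2 pid) (pconst true))) (Poly.decide_lt (Poly.length (poly_u2 pid))
    (Poly.length (poly_u1 pid)))

theorem ones_pair (x w : List Bool) : ones (pairBits x w) = true ↔
    w = List.replicate w.length true ∧ w.length < x.length := by
  unfold ones
  rw [u1_pair, u2_pair, Bool.and_eq_true, decide_eq_true_iff, decide_eq_true_iff,
    List.map_const']

theorem inP_of_poly {d : List Bool → Bool} (hd : Pool.Agent.NPC.Poly d) :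
    InP {z | d z = true} := inP_iff.2 ⟨d, hd, fun _ => Iff.rfl⟩

/-- small existential quantification is a case of the bounded one -/
theorem small_eq (L : Set (List Bool)) :
    {x : List Bool | ∃ i < x.length, pairBits x (List.replicate i true) ∈ L} =
    {x : List Bool | ∃ w : List Bool, w.length ≤ (Polynomial.X : Polynomial ℕ).eval x.length ∧
      pairBits x w ∈ {z | ones z = true} ∩ L} := by
  ext x
  constructor
  · rintro ⟨i, hi, hL⟩
    refine ⟨List.replicate i true, ?_, ?_, hL⟩
    · rw [List.length_replicate, Polynomial.eval_X]; exact hi.le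
    · change ones _ = true
      rw [ones_pair, List.length_replicate]
      exact ⟨rfl, hi⟩
  · rintro ⟨w, _, hw, hL⟩
    change ones _ = true at hw
    rw [ones_pair] at hw
    obtain ⟨h1, h2⟩ := hw
    rw [h1] at hL
    exact ⟨_, h2, hL⟩

theorem sigma_small (k : ℕ) {L : Set (List Bool)} (h : SigmaP k L) :
    SigmaP k {x | ∃ i < x.length, pairBits x (List.replicate i true) ∈ L} := by
  cases k with
  | zero => exact inP_small h
  | succ k =>
    rw [small_eq]
    refine sigma_ex k _ ((sigma_props (k + 1)).2.1 _ _ ?_ h)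
    exact sigma_mono (Nat.zero_le _) (show SigmaP 0 _ from inP_of_poly poly_ones)

/-- the `i`-th string of a coded list -/
def nth (u : List Bool) (i : ℕ) : List Bool := ((unbits (List (List Bool)) u).getD []).getD i []

theorem poly_optGetD {α β : Type} [TEnc α] [TEnc β] {o : α → Option β}
    (ho : Pool.Agent.NPC.Poly o) (d : β) : Pool.Agent.NPC.Poly (fun a => (o a).getD d) := by
  refine (Poly.optCases (g := fun _ => d) (h := fun _ b => b) ho (pconst d)
    (Poly.snd Pool.Agent.NPC.Poly.id)).congr fun a => ?_
  cases o a <;> rfl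

theorem poly_nth {α : Type} [TEnc α] {u : α → List Bool} {i : α → ℕ}
    (hu : Pool.Agent.NPC.Poly u) (hi : Pool.Agent.NPC.Poly i) :
    Pool.Agent.NPC.Poly (fun a => nth (u a) (i a)) :=
  Poly.getD (poly_optGetD (poly_unbits.comp hu) []) hi (pconst [])

theorem nth_bits (W : List (List Bool)) (i : ℕ) : nth (bits W) i = W.getD i [] := by
  unfold nth
  rw [unbits_bits]
  rfl

theorem sigma_all (k : ℕ) {L : Set (List Bool)} (h : SigmaP (k + 1) L) :
    SigmaP (k + 1) {x | ∀ i < x.length, pairBits x (List.replicate i true) ∈ L} := by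
  obtain ⟨M, p, hM, h⟩ := h
  let g : List Bool → List Bool := fun z => pairBits (pairBits (u1 (u1 z)) (u2 z))
    ((nth (u2 (u1 z)) (u2 z).length).take (p.eval (pairBits (u1 (u1 z)) (u2 z)).length))
  have pg : Pool.Agent.NPC.Poly g := by
    have q1 : Pool.Agent.NPC.Poly (fun z : List Bool => pairBits (u1 (u1 z)) (u2 z)) :=
      poly_pairBits (poly_u1 (poly_u1 pid)) (poly_u2 pid)
    exact poly_pairBits q1 (poly_trunc q1 (poly_nth (poly_u2 (poly_u1 pid))
      (Poly.length (poly_u2 pid))) p)
  let A : Set (List Bool) := {z | decide ((u2 z).length < (u1 (u1 z)).length) = true}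
  have hA : SigmaP k A := sigma_mono (Nat.zero_le _) (show SigmaP 0 _ from
    inP_of_poly (Poly.decide_lt (Poly.length (poly_u2 pid))
      (Poly.length (poly_u1 (poly_u1 pid)))))
  have hM' := sigma_small k ((sigma_props k).2.1 _ _ hA ((sigma_props k).1 M g pg hM))
  refine ⟨_, Polynomial.X * (4 * p.comp (3 * Polynomial.X + 1) + 2) + 1, hM', fun x => ?_⟩
  have key : ∀ u : List Bool, pairBits x u ∉ {y | ∃ i < y.length,
      pairBits y (List.replicate i true) ∈ A ∩ g ⁻¹' M} ↔
      ∀ i < x.length, pairBits (pairBits x (List.replicate i true))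
        ((nth u i).take (p.eval (pairBits x (List.replicate i true)).length)) ∉ M := by
    intro u
    constructor
    · intro hn i hi hm
      apply hn
      refine ⟨i, by rw [pairBits_length]; omega, ?_, ?_⟩
      · change decide _ = true
        rw [u1_pair, u2_pair, u1_pair, List.length_replicate]
        exact decide_eq_true hi
      · change pairBits (pairBits (u1 (u1 _)) (u2 _)) _ ∈ M
        rw [u1_pair, u2_pair, u1_pair, u2_pair, List.length_replicate]
        exact hm
    · rintro hn ⟨i, _, hi, hm⟩
      change decide _ = true at hi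
      rw [u1_pair, u2_pair, u1_pair, List.length_replicate, decide_eq_true_iff] at hi
      change pairBits (pairBits (u1 (u1 _)) (u2 _)) _ ∈ M at hm
      rw [u1_pair, u2_pair, u1_pair, u2_pair, List.length_replicate] at hm
      exact hn i hi hm
  constructor
  · intro hx
    have hx' : ∀ i : Fin x.length, ∃ w : List Bool,
        w.length ≤ p.eval (pairBits x (List.replicate i.1 true)).length ∧
        pairBits (pairBits x (List.replicate i.1 true)) w ∉ M := fun i => (h _).1 (hx i.1 i.2)
    choose w hw hwM using hx'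
    refine ⟨bits (List.ofFn w), ?_, ?_⟩
    · rw [bits_length]
      have hb : ∀ a ∈ List.ofFn w, sz a ≤ 4 * p.eval (3 * x.length + 1) + 1 := by
        intro a ha
        obtain ⟨i, rfl⟩ := (List.mem_ofFn' w a).1 ha
        have h1 := sz_listBool_le (w i)
        have h2 := hw i
        have h3 : p.eval (pairBits x (List.replicate i.1 true)).length ≤
            p.eval (3 * x.length + 1) := by
          refine eval_mono p ?_
          rw [pairBits_length, List.length_replicate]
          have := i.2
          omega
        omega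
      have h4 := sz_le_length_mul _ _ hb
      rw [List.length_ofFn] at h4
      simp only [Polynomial.eval_add, Polynomial.eval_mul, Polynomial.eval_X,
        Polynomial.eval_ofNat, Polynomial.eval_comp, Polynomial.eval_one]
      exact h4
    · rw [key]
      intro i hi
      rw [nth_bits]
      have hi' : i < (List.ofFn w).length := by rw [List.length_ofFn]; exact hi
      rw [List.getD_eq_getElem _ _ hi', List.getElem_ofFn,
        List.take_of_length_le (hw ⟨i, hi⟩)]
      exact hwM ⟨i, hi⟩
  · rintro ⟨u, _, hu⟩
    rw [key] at hu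
    intro i hi
    rw [h]
    exact ⟨_, by rw [List.length_take]; exact min_le_left _ _, hu i hi⟩

/-- The levels of the hierarchy. -/
theorem nice2_sigma (k : ℕ) : Nice2 (SigmaP (k + 1)) where
  toNice := nice_sigma k
  union h h' := (sigma_props (k + 1)).2.2 _ _ h h'
  all h := sigma_all k h

/-- The hierarchy. -/
theorem nice2_ph : Nice2 InPH where
  toNice := nice_ph
  union := by
    rintro L L' ⟨k, h⟩ ⟨k', h'⟩
    exact ⟨max k k', (sigma_props _).2.2 _ _ (sigma_mono (le_max_left _ _) h)
      (sigma_mono (le_max_right _ _) h')⟩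
  all := by
    rintro L ⟨k, h⟩
    exact ⟨k + 1, sigma_all k (sigma_succ h)⟩

/-- `NP`. -/
theorem nice2_np : Nice2 InNP := by
  have e : InNP = SigmaP 1 := funext fun L => propext inNP_iff
  rw [e]
  exact nice2_sigma 0

theorem inPSPACE_inter {L L' : Set (List Bool)} (h : InPSPACE L) (h' : InPSPACE L') :
    InPSPACE (L ∩ L') := by
  obtain ⟨F, hF, h⟩ := sp_of_inPSPACE h
  obtain ⟨F', hF', h'⟩ := sp_of_inPSPACE h'
  exact inPSPACE_of_sp (Sp.op2 (g := fun b : Bool × Bool => b.1 && b.2) hF hF'
    (Poly.and (Poly.fst Pool.Agent.NPC.Poly.id) (Poly.snd Pool.Agent.NPC.Poly.id)))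
    fun x => by rw [Set.mem_inter_iff, h, h', Bool.and_eq_true]

theorem inPSPACE_pre {L : Set (List Bool)} {f : List Bool → List Bool}
    (hf : Pool.Agent.NPC.Poly f) (h : InPSPACE L) : InPSPACE (f ⁻¹' L) := by
  obtain ⟨F, hF, h⟩ := sp_of_inPSPACE h
  exact inPSPACE_of_sp (hF.comp (Sp.of_poly hf)) fun x => h (f x)

/-- `PSPACE`. -/
theorem nice2_pspace : Nice2 InPSPACE where
  ofP h := inPSPACE_of_inP h
  pre hf h := inPSPACE_pre hf h
  inter h h' := inPSPACE_inter h h'
  ex p h := inPSPACE_ex p h
  space h := h
  union {L L'} h h' := by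
    have e : L ∪ L' = (Lᶜ ∩ L'ᶜ)ᶜ := by rw [Set.compl_inter, compl_compl, compl_compl]
    rw [e]
    exact inPSPACE_compl (inPSPACE_inter (inPSPACE_compl h) (inPSPACE_compl h'))
  all {L} h := by
    have e : {x : List Bool | ∀ i < x.length, pairBits x (List.replicate i true) ∈ L} =
        {x : List Bool | ∃ i < x.length, pairBits x (List.replicate i true) ∈ Lᶜ}ᶜ := by
      ext x
      constructor
      · rintro hx ⟨i, hi, hn⟩
        exact hn (hx i hi)
      · intro hx i hi
        by_contra hn
        exact hx ⟨i, hi, hn⟩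
    rw [e, small_eq]
    exact inPSPACE_compl (inPSPACE_ex _ (inPSPACE_inter
      (inPSPACE_of_inP (inP_of_poly poly_ones)) (inPSPACE_compl h)))

end Pool.Agent.W903.Rig
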