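import Pool.Agent.W903.Rig.Recon

/-!
# Classes closed under unions and small universal quantification
-/

namespace Pool.Agent.W903.Rig

open Pool.Agent.NPC Pool.Agent.NPC.PIso Pool.Agent.W903.GP

/-- The closure properties used for the rigidity theorem. -/
structure Nice2 (C : Set (List Bool) → Prop) : Prop extends Nice C where
  union : ∀ {L L' : Set (List Bool)}, C L → C L' → C (L ∪ L')
  all : ∀ {L : Set (List Bool)}, C L →
    C {x | ∀ i < x.length, pairBits x (List.replicate i true) ∈ L}

/-- the code of an optional object -/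
def optB {β : Type} [TEnc β] (o : Option β) : List Bool := o.elim [] fun b => bits b

theorem poly_optB {β : Type} [TEnc β] {g : List Bool → Option β} (hg : Pool.Agent.NPC.Poly g) :
    Pool.Agent.NPC.Poly (fun x => optB (g x)) := by
  refine (poly_iff.2 (polyTime_opt hg)).congr fun y => ?_
  unfold optB
  cases g y <;> rfl

section

variable {C : Set (List Bool) → Prop} (hC : Nice2 C) {α β : Type} [TEnc α] [TEnc β]

/-- composition with a polynomial-time function -/
theorem CP.map [TDec α] {P : β → Prop} (hC : Nice2 C) (h : CP C P) {g : α → β}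
    (hg : Pool.Agent.NPC.Poly g) : CP C (fun a => P (g a)) := by
  obtain ⟨L, h1, h2⟩ := h
  have h0 : Pool.Agent.NPC.Poly (fun y : List Bool => (unbits α y).map g) :=
    Poly.optMap (o := fun y : List Bool => unbits α y) (f := fun _ a => g a) poly_unbits
      (hg.comp (Poly.snd Pool.Agent.NPC.Poly.id))
  refine ⟨_, hC.pre (poly_optB h0) h1, fun a => ?_⟩
  rw [Set.mem_preimage, unbits_bits]
  exact h2 _

theorem CP.or {P Q : α → Prop} (hC : Nice2 C) (h : CP C P) (h' : CP C Q) :
    CP C (fun a => P a ∨ Q a) := by
  obtain ⟨L, h1, h2⟩ := h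
  obtain ⟨L', h1', h2'⟩ := h'
  exact ⟨_, hC.union h1 h1', fun a => or_congr (h2 a) (h2' a)⟩

theorem CP.congr {P Q : α → Prop} (h : CP C P) (he : ∀ a, P a ↔ Q a) : CP C Q := by
  obtain ⟨L, h1, h2⟩ := h
  exact ⟨L, h1, fun a => (he a).symm.trans (h2 a)⟩

/-- a typed witness -/
theorem CP.exT [TDec α] [TDec β] (hC : Nice2 C) {P : α × β → Prop} (h : CP C P)
    (p : Polynomial ℕ) : CP C (fun a => ∃ b : β, sz b ≤ p.eval (sz a) ∧ P (a, b)) := by
  obtain ⟨L, h1, h2⟩ := h
  have h0 : Pool.Agent.NPC.Poly (fun y : List Bool => (unbits (α × List Bool) y).bind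
      (fun q => (unbits β q.2).map (fun b => (q.1, b)))) := by
    refine Poly.optBind (o := fun y : List Bool => unbits (α × List Bool) y)
      (f := fun _ q => (unbits β q.2).map (fun b => (q.1, b))) poly_unbits ?_
    refine Poly.optMap (o := fun r : List Bool × (α × List Bool) => unbits β r.2.2)
      (f := fun r b => (r.2.1, b))
      (poly_unbits.comp (Poly.snd (Poly.snd Pool.Agent.NPC.Poly.id))) ?_
    exact Poly.pair (Poly.fst (Poly.snd (Poly.fst Pool.Agent.NPC.Poly.id)))
      (Poly.snd Pool.Agent.NPC.Poly.id)
  have h3 : CP C (fun q : α × List Bool => (unbits β q.2).isSome = true) :=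
    CP.poly hC.toNice (Poly.isSome (poly_unbits.comp (Poly.snd Pool.Agent.NPC.Poly.id)))
  have h4 : CP C (fun q : α × List Bool => ∃ b, unbits β q.2 = some b ∧ P (q.1, b)) := by
    have h5 : CP C (fun q : α × List Bool =>
        optB ((unbits β q.2).map (fun b => (q.1, b))) ∈ L) := by
      refine ⟨_, hC.pre (poly_optB h0) h1, fun q => ?_⟩
      rw [Set.mem_preimage, unbits_bits]
      rfl
    refine CP.congr (CP.and hC.toNice h3 h5) fun q => ?_
    cases hq : unbits β q.2 with
    | none => simp
    | some b =>
      simp only [Option.isSome_some, Option.map_some, true_and, Option.some.injEq, optB,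
        Option.elim_some]
      rw [← h2]
      constructor
      · intro hP; exact ⟨b, rfl, hP⟩
      · rintro ⟨b', rfl, hP⟩; exact hP
  refine CP.congr (CP.ex hC.toNice h4 p) fun a => ?_
  constructor
  · rintro ⟨w, hw, b, hb, hP⟩
    have e := bits_of_unbits hb
    refine ⟨b, ?_, hP⟩
    rw [← bits_length, e]
    exact hw
  · rintro ⟨b, hb, hP⟩
    exact ⟨bits b, by rw [bits_length]; exact hb, b, unbits_bits b, hP⟩

/-- small universal quantification -/
theorem CP.all [TDec α] (hC : Nice2 C) {P : α × ℕ → Prop} (h : CP C P) {N : α → ℕ}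
    (hN : UPoly N) : CP C (fun a => ∀ i < N a, P (a, i)) := by
  have h1 : CP C (fun q : α × ℕ => P q ∨ decide (N q.1 ≤ q.2) = true) :=
    CP.or hC h (CP.poly hC.toNice (Poly.decide_le (hN.toPoly.comp (Poly.fst
      Pool.Agent.NPC.Poly.id)) (Poly.snd Pool.Agent.NPC.Poly.id)))
  obtain ⟨L, k1, k2⟩ := h1
  -- reading the pair of a code and a number
  have h0 : Pool.Agent.NPC.Poly (fun z : List Bool => (unbits α (u1 (u1 z))).map
      (fun a => (a, (u2 z).length))) := by
    refine Poly.optMap (o := fun z : List Bool => unbits α (u1 (u1 z)))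
      (f := fun z a => (a, (u2 z).length)) (poly_unbits.comp (poly_u1 (poly_u1 pid))) ?_
    exact Poly.pair (Poly.snd Pool.Agent.NPC.Poly.id)
      (Poly.length (poly_u2 (Poly.fst Pool.Agent.NPC.Poly.id)))
  have h3 := hC.all (hC.pre (poly_optB h0) k1)
  have h4 : Pool.Agent.NPC.Poly (rew (fun a : α => pairBits (bits a)
      (List.replicate (N a) true))) := by
    have h5 : Pool.Agent.NPC.Poly (fun y : List Bool => match unbits α y with
        | none => []
        | some a => pairBits y (List.replicate (N a) true)) := by
      refine Poly.optCases (g := fun _ : List Bool => ([] : List Bool))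
        (h := fun y a => pairBits y (List.replicate (N a) true)) poly_unbits (pconst []) ?_
      refine poly_pairBits (Poly.fst Pool.Agent.NPC.Poly.id) ?_
      refine (Pool.Agent.NPC.Poly.map (F := fun _ (_ : Unit) => true) (hN.comp (Poly.snd
        (Pool.Agent.NPC.Poly.id (α := List Bool × α)))) (pconst true)).congr fun q => ?_
      simp
    refine h5.congr fun y => ?_
    unfold rew
    cases hy : unbits α y with
    | none => rfl
    | some a => simp only [bits_of_unbits hy]
  refine ⟨_, hC.pre h4 h3, fun a => ?_⟩
  rw [Set.mem_preimage, rew_bits]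
  have key : ∀ i, (pairBits (pairBits (bits a) (List.replicate (N a) true))
      (List.replicate i true) ∈ (fun z : List Bool =>
        optB ((unbits α (u1 (u1 z))).map (fun a => (a, (u2 z).length)))) ⁻¹' L) ↔
        (P (a, i) ∨ N a ≤ i) := by
    intro i
    rw [Set.mem_preimage, u1_pair, u1_pair, u2_pair, unbits_bits, List.length_replicate]
    rw [← decide_eq_true_iff (p := N a ≤ i)]
    exact (k2 (a, i)).symm
  constructor
  · intro hP i _
    rw [key]
    by_cases hi : i < N a
    · exact Or.inl (hP i hi)
    · exact Or.inr (by omega)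
  · intro hP i hi
    have hi' : i < (pairBits (bits a) (List.replicate (N a) true)).length := by
      rw [pairBits_length, List.length_replicate]; omega
    rcases (key i).1 (hP i hi') with h | h
    · exact h
    · omega

end

end Pool.Agent.W903.Rig
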