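import Pool.Agent.W903.Rig.Strings

/-!
# Reading off the inverse of the permutation from the images of rotation and test
-/

namespace Pool.Agent.W903.Rig

open Equiv Pool.Agent.NPC Pool.Agent.NPC.PIso Pool.Agent.W903.GP

section

variable {t : Perm (List Bool)} {gr gt : List Bool → List Bool}
  (hlen : ∀ x, (t x).length = x.length) (h0 : ∀ x, x.length < 3 → t x = x)
  (hr : ∀ x, gr (t x) = t (rotF x)) (ht : ∀ x, gt (t x) = t (tstF x))

/-- the decoded string -/
def decS (gr gt : List Bool → List Bool) (y : List Bool) : List Bool :=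
  (List.range y.length).map fun j => decide (gt (gr^[j] y) ≠ gr^[j] y)

include hr in
theorem gr_iter (j : ℕ) (x : List Bool) : gr^[j] (t x) = t (rotF^[j] x) := by
  induction j generalizing x with
  | zero => rfl
  | succ j ih => rw [Function.iterate_succ_apply, hr, ih, Function.iterate_succ_apply]

include hlen hr ht in
theorem decS_eq (y : List Bool) (h : 3 ≤ y.length) : t.symm y = decS gr gt y := by
  obtain ⟨x, rfl⟩ := t.surjective y
  rw [Equiv.symm_apply_apply]
  rw [hlen] at h
  apply List.ext_getElem
  · unfold decS
    rw [List.length_map, List.length_range, hlen]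
  · intro j h1 h2
    unfold decS
    rw [List.getElem_map, List.getElem_range, gr_iter hr, ht]
    have e := bit_eq x h j h1
    rw [List.getD_eq_getElem _ _ h1] at e
    rw [← e]
    simp only [ne_eq, EmbeddingLike.apply_eq_iff_eq]

include hlen hr in
theorem gr_length (y : List Bool) : (gr y).length = y.length := by
  obtain ⟨x, rfl⟩ := t.surjective y
  rw [hr, hlen, hlen, rotF_length]

include hlen h0 hr ht in
theorem symm_eq (y : List Bool) : t.symm y = if 3 ≤ y.length then decS gr gt y else y := by
  split
  · rename_i h; exact decS_eq hlen hr ht y h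
  · rename_i h
    rw [Equiv.symm_apply_eq]
    exact (h0 y (by omega)).symm

include hlen h0 hr ht in
/-- the polynomial-time case -/
theorem poly_symm (pr : Pool.Agent.NPC.Poly gr) (pt : Pool.Agent.NPC.Poly gt) :
    Pool.Agent.NPC.Poly ⇑t.symm := by
  have h1 : Pool.Agent.NPC.Poly (fun p : List Bool × ℕ => gr^[(p.1.take p.2).length] p.1) := by
    refine Poly.iterLen (l := fun p : List Bool × ℕ => p.1.take p.2) (s := fun p => p.1)
      (F := fun _ => gr)
      (Pool.Agent.NPC.Mix.T1.poly_take (Poly.fst Pool.Agent.NPC.Poly.id)
        (Poly.snd Pool.Agent.NPC.Poly.id)) (Poly.fst Pool.Agent.NPC.Poly.id)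
      (pr.comp (Poly.snd Pool.Agent.NPC.Poly.id)) (Polynomial.C 4 * Polynomial.X + 1) ?_
    intro p k _
    have h1 := sz_listBool_le (gr^[k] p.1)
    rw [iter_length (gr_length hlen hr)] at h1
    have h2 := sz_listBool_ge p.1
    have h3 : sz p = sz p.1 + sz p.2 + 1 := sz_pair p.1 p.2
    simp only [Polynomial.eval_add, Polynomial.eval_mul, Polynomial.eval_C, Polynomial.eval_X,
      Polynomial.eval_one]
    omega
  have h2 : Pool.Agent.NPC.Poly (fun y : List Bool => (List.range y.length).map fun j =>
      decide (gt (gr^[(y.take j).length] y) ≠ gr^[(y.take j).length] y)) := by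
    refine Pool.Agent.NPC.Poly.map (F := fun (y : List Bool) j =>
      decide (gt (gr^[(y.take j).length] y) ≠ gr^[(y.take j).length] y))
      (Poly.range_length Pool.Agent.NPC.Poly.id) ?_
    exact Poly.decide_not (Poly.decide_eq (pt.comp h1) h1)
  have h3 : Pool.Agent.NPC.Poly (fun y : List Bool => if 3 ≤ y.length then
      (List.range y.length).map fun j =>
        decide (gt (gr^[(y.take j).length] y) ≠ gr^[(y.take j).length] y) else y) :=
    Poly.ite (Poly.decide_le (pconst 3) (Poly.length pid)) h2 pid
  refine h3.congr fun y => ?_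
  rw [symm_eq hlen h0 hr ht y]
  split
  · unfold decS
    refine List.map_congr_left fun j hj => ?_
    rw [List.mem_range] at hj
    rw [List.length_take, min_eq_left hj.le]
  · rfl

end

end Pool.Agent.W903.Rig
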