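import Pool.Agent.W903.Rig.Inst

/-!
# Rigidity of the groups of length-preserving permutations
-/

namespace Pool.Agent.W903.Rig

open Equiv Pool.Agent.NPC Pool.Agent.NPC.PIso Pool.Agent.W903.GP

/-- length-preserving, and the identity on the strings with at most two letters -/
def LP (f : Perm (List Bool)) : Prop :=
  (∀ x, (f x).length = x.length) ∧ ∀ x, x.length ≤ 2 → f x = x

theorem LP.one : LP 1 := ⟨fun _ => rfl, fun _ _ => rfl⟩

theorem LP.mul {f g : Perm (List Bool)} (hf : LP f) (hg : LP g) : LP (f * g) :=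
  ⟨fun x => by rw [Perm.mul_apply, hf.1, hg.1],
    fun x hx => by rw [Perm.mul_apply, hg.2 x hx, hf.2 x hx]⟩

theorem LP.inv {f : Perm (List Bool)} (hf : LP f) : LP f⁻¹ :=
  ⟨inv_length f hf.1, fun x hx => (Equiv.symm_apply_eq f).2 (hf.2 x hx).symm⟩

/-- The normalised group of a class. -/
def RC (C : Set (List Bool) → Prop) (hC : Nice2 C) : Subgroup (Perm (List Bool)) where
  carrier := {f | LP f ∧ C (graph ⇑f)}
  mul_mem' := by
    rintro a b ⟨ha, ha1⟩ ⟨hb, hb1⟩
    have h : C (graph (fun x => a (b x))) :=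
      c_graph_comp hC.toNice ha1 hb1 (ρ := Polynomial.X)
        (fun x => by rw [hb.1, Polynomial.eval_X])
    exact ⟨ha.mul hb, h⟩
  one_mem' := ⟨LP.one, c_graph_poly hC.toNice Pool.Agent.NPC.Poly.id⟩
  inv_mem' := by
    rintro a ⟨ha, ha1⟩
    exact ⟨ha.inv, c_graph_inv hC.toNice ha1⟩

/-- The normalised group of the polynomial-time permutations. -/
def RP : Subgroup (Perm (List Bool)) where
  carrier := {f | LP f ∧ PolyTime ⇑f ∧ PolyTime ⇑f⁻¹}
  mul_mem' := by
    rintro a b ⟨ha, ha1⟩ ⟨hb, hb1⟩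
    exact ⟨ha.mul hb, (GrpP.mul_mem (⟨ha.1, ha1⟩ : a ∈ GrpP) (⟨hb.1, hb1⟩ : b ∈ GrpP)).2⟩
  one_mem' := ⟨LP.one, GrpP.one_mem.2⟩
  inv_mem' := by
    rintro a ⟨ha, ha1⟩
    exact ⟨ha.inv, (GrpP.inv_mem (⟨ha.1, ha1⟩ : a ∈ GrpP)).2⟩

theorem poly_swap (x y : List Bool) : Pool.Agent.NPC.Poly ⇑(swap x y) := by
  have h : Pool.Agent.NPC.Poly (fun z : List Bool =>
      if z = x then y else if z = y then x else z) :=
    Poly.ite (Poly.decide_eq pid (pconst x)) (pconst y)
      (Poly.ite (Poly.decide_eq pid (pconst y)) (pconst x) pid)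
  refine h.congr fun z => ?_
  rw [swap_apply_def]

theorem LP_swap {x y : List Bool} (hx : 3 ≤ x.length) (hxy : x.length = y.length) :
    LP (swap x y) := by
  constructor
  · intro z
    rw [swap_apply_def]
    split_ifs with h1 h2
    · rw [h1, hxy]
    · rw [h2, hxy]
    · rfl
  · intro z hz
    refine swap_apply_of_ne_of_ne ?_ ?_
    · rintro rfl; omega
    · rintro rfl; omega

theorem mem_RP {f : Perm (List Bool)} : f ∈ RP ↔ LP f ∧ PolyTime ⇑f ∧ PolyTime ⇑f⁻¹ := Iff.rfl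

theorem mem_RC {C : Set (List Bool) → Prop} {hC : Nice2 C} {f : Perm (List Bool)} :
    f ∈ RC C hC ↔ LP f ∧ C (graph ⇑f) := Iff.rfl

theorem swap_mem_RP {x y : List Bool} (hx : 3 ≤ x.length) (hxy : x.length = y.length) :
    swap x y ∈ RP := by
  refine ⟨LP_swap hx hxy, poly_iff.1 (poly_swap x y), ?_⟩
  rw [swap_inv]
  exact poly_iff.1 (poly_swap x y)

theorem RP_le {C : Set (List Bool) → Prop} (hC : Nice2 C) : RP ≤ RC C hC := by
  rintro f ⟨hf, h1, _⟩
  exact ⟨hf, c_graph_poly hC.toNice (poly_iff.2 h1)⟩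

theorem rotE_mem : rotE ∈ RP := by
  refine ⟨⟨rotF_length, fun x hx => ?_⟩, poly_iff.1 poly_rotF, poly_iff.1 poly_rotB⟩
  change rotF x = x
  unfold rotF
  rw [if_neg (by omega)]

theorem tstE_mem : tstE ∈ RP := by
  refine ⟨⟨tstF_length, fun x hx => ?_⟩, poly_iff.1 poly_tstF, poly_iff.1 poly_tstF⟩
  change tstF x = x
  match x, hx with
  | [], _ => rfl
  | [a], _ => cases a <;> rfl
  | [a, _], _ => cases a <;> rfl

theorem big_RP : Big (List.length : List Bool → ℕ) RP where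
  len f hf x := hf.1.1 x
  fix f hf x hx := hf.1.2 x (by omega)
  swap x y hx hxy := swap_mem_RP hx hxy

theorem big_RC {C : Set (List Bool) → Prop} (hC : Nice2 C) :
    Big (List.length : List Bool → ℕ) (RC C hC) where
  len f hf x := hf.1.1 x
  fix f hf x hx := hf.1.2 x (by omega)
  swap x y hx hxy := RP_le hC (swap_mem_RP hx hxy)

/-- spatial isomorphisms are given by length-preserving permutations -/
theorem spatial' {G H : Subgroup (Perm (List Bool))} (hG : Big List.length G)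
    (hH : Big List.length H) (φ : G ≃* H) :
    ∃ s : Perm (List Bool), LP s ∧ ∀ g : G, (φ g : Perm (List Bool)) = s * g * s⁻¹ := by
  obtain ⟨s, h1, h2, h3⟩ := spatial hG hH fat_length φ
  exact ⟨s, ⟨length_of_fibres h1 h2, fun x hx => h1 x (by omega)⟩, h3⟩

theorem spatial_symm {G H : Subgroup (Perm (List Bool))} {φ : G ≃* H} {s : Perm (List Bool)}
    (h : ∀ g : G, (φ g : Perm (List Bool)) = s * g * s⁻¹) (g : H) :
    (φ.symm g : Perm (List Bool)) = s⁻¹ * g * (s⁻¹)⁻¹ := by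
  have h1 := h (φ.symm g)
  rw [MulEquiv.apply_symm_apply] at h1
  rw [h1]
  group

theorem conj_fun {s a b : Perm (List Bool)} (h : b = s * a * s⁻¹) (x : List Bool) :
    b (s x) = s (a x) := by
  rw [h]
  exact congrArg (fun z => s (a z)) (s.symm_apply_apply x)

/-- the inverse of the permutation is in the class of the image -/
theorem inv_mem_of_iso {G : Subgroup (Perm (List Bool))} {D : Set (List Bool) → Prop}
    (hD : Nice2 D) (hG : RP ≤ G) (φ : G ≃* RC D hD) {s : Perm (List Bool)} (hs : LP s)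
    (h : ∀ g : G, (φ g : Perm (List Bool)) = s * g * s⁻¹) : s⁻¹ ∈ RC D hD := by
  refine ⟨hs.inv, ?_⟩
  exact c_symm (t := s) (gr := ⇑(φ ⟨rotE, hG rotE_mem⟩ : Perm (List Bool)))
    (gt := ⇑(φ ⟨tstE, hG tstE_mem⟩ : Perm (List Bool))) hs.1 (fun x hx => hs.2 x (by omega))
    (fun x => conj_fun (h _) x) (fun x => conj_fun (h _) x) hD
    (φ ⟨rotE, hG rotE_mem⟩).2.2 (φ ⟨tstE, hG tstE_mem⟩).2.2

/-- the polynomial-time case -/
theorem poly_of_iso {G : Subgroup (Perm (List Bool))}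
    (hG : RP ≤ G) (φ : G ≃* RP) {s : Perm (List Bool)} (hs : LP s)
    (h : ∀ g : G, (φ g : Perm (List Bool)) = s * g * s⁻¹) : PolyTime ⇑s⁻¹ := by
  refine poly_iff.1 ?_
  exact poly_symm (t := s) (gr := ⇑(φ ⟨rotE, hG rotE_mem⟩ : Perm (List Bool)))
    (gt := ⇑(φ ⟨tstE, hG tstE_mem⟩ : Perm (List Bool))) hs.1 (fun x hx => hs.2 x (by omega))
    (fun x => conj_fun (h _) x) (fun x => conj_fun (h _) x)
    (poly_iff.2 (φ ⟨rotE, hG rotE_mem⟩).2.2.1) (poly_iff.2 (φ ⟨tstE, hG tstE_mem⟩).2.2.1)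

theorem eq_of_conj {G H : Subgroup (Perm (List Bool))} (φ : G ≃* H) {s : Perm (List Bool)}
    (hs : s ∈ H) (h : ∀ g : G, (φ g : Perm (List Bool)) = s * g * s⁻¹) : G = H := by
  apply le_antisymm
  · intro g hg
    have h1 := (φ ⟨g, hg⟩).2
    rw [h] at h1
    have h2 := H.mul_mem (H.mul_mem (H.inv_mem hs) h1) hs
    have e : s⁻¹ * (s * g * s⁻¹) * s = g := by group
    rwa [e] at h2
  · intro g hg
    have h0 : s * g * s⁻¹ ∈ H := H.mul_mem (H.mul_mem hs hg) (H.inv_mem hs)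
    have h1 := spatial_symm h ⟨s * g * s⁻¹, h0⟩
    have e : s⁻¹ * (s * g * s⁻¹) * (s⁻¹)⁻¹ = g := by group
    rw [e] at h1
    rw [← h1]
    exact (φ.symm _).2

/-- **Rigidity, two classes with the closure properties.** -/
theorem rigid_CC {C D : Set (List Bool) → Prop} (hC : Nice2 C) (hD : Nice2 D)
    (φ : RC C hC ≃* RC D hD) : RC C hC = RC D hD ∧
    ∃ s ∈ RC C hC, ∀ g : RC C hC, (φ g : Perm (List Bool)) = s * g * s⁻¹ := by
  obtain ⟨s, hs, h⟩ := spatial' (big_RC hC) (big_RC hD) φ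
  have h1 := inv_mem_of_iso hD (RP_le hC) φ hs h
  have h2 := inv_mem_of_iso hC (RP_le hD) φ.symm hs.inv (spatial_symm h)
  rw [inv_inv] at h2
  have h3 : s ∈ RC D hD := by
    have := (RC D hD).inv_mem h1
    rwa [inv_inv] at this
  exact ⟨eq_of_conj φ h3 h, s, h2, h⟩

/-- **Rigidity, polynomial time and a class with the closure properties.** -/
theorem rigid_PC {D : Set (List Bool) → Prop} (hD : Nice2 D)
    (φ : RP ≃* RC D hD) : RP = RC D hD := by
  obtain ⟨s, hs, h⟩ := spatial' big_RP (big_RC hD) φ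
  have h1 := inv_mem_of_iso hD le_rfl φ hs h
  have h3 : s ∈ RC D hD := by
    have := (RC D hD).inv_mem h1
    rwa [inv_inv] at this
  exact eq_of_conj φ h3 h

theorem rigid_PC' {D : Set (List Bool) → Prop} (hD : Nice2 D)
    (φ : RP ≃* RC D hD) : ∃ s ∈ RP, ∀ g : RP, (φ g : Perm (List Bool)) = s * g * s⁻¹ := by
  obtain ⟨s, hs, h⟩ := spatial' big_RP (big_RC hD) φ
  have h1 := inv_mem_of_iso hD le_rfl φ hs h
  have h3 : s ∈ RC D hD := by
    have := (RC D hD).inv_mem h1
    rwa [inv_inv] at this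
  exact ⟨s, by rw [rigid_PC hD φ]; exact h3, h⟩

/-- **Automorphisms of the polynomial-time group are inner.** -/
theorem inner_P (φ : RP ≃* RP) : ∃ s ∈ RP, ∀ g : RP, (φ g : Perm (List Bool)) = s * g * s⁻¹ := by
  obtain ⟨s, hs, h⟩ := spatial' big_RP big_RP φ
  have h1 := poly_of_iso le_rfl φ hs h
  have h2 := poly_of_iso le_rfl φ.symm hs.inv (spatial_symm h)
  rw [inv_inv] at h2
  exact ⟨s, ⟨hs, h2, h1⟩, h⟩

/-- the centre is trivial -/
theorem center_trivial {G : Subgroup (Perm (List Bool))} (hG : Big List.length G)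
    {z : Perm (List Bool)} (hz : z ∈ G) (hc : ∀ g ∈ G, g * z = z * g) : z = 1 := by
  refine Equiv.ext fun x => ?_
  by_cases hx : x.length < 3
  · exact hG.fix z hz x hx
  · by_contra hne
    obtain ⟨y, hy, hyl⟩ := fat_length x (by omega) {x, z x}
      (Finset.card_le_two.trans (by norm_num))
    simp only [Finset.mem_insert, Finset.mem_singleton, not_or] at hy
    have h1 := hc _ (hG.swap x y (by omega) hyl.symm)
    have h2 := congrArg (fun e : Perm (List Bool) => e x) h1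
    simp only [Perm.mul_apply, swap_apply_left] at h2
    have hne' : z x ≠ x := hne
    rw [swap_apply_of_ne_of_ne hne' (Ne.symm hy.2)] at h2
    exact hy.1 (z.injective h2).symm

end Pool.Agent.W903.Rig
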