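import Pool.Agent.W903.Rig.Trans

/-!
# Isomorphisms are induced by permutations of the points
-/

namespace Pool.Agent.W903.Rig

open Equiv

variable {X : Type} [DecidableEq X] {ℓ : X → ℕ}

theorem swap_moves {a b p : X} (h : swap a b p ≠ p) : p = a ∨ p = b := by
  by_contra hc
  push Not at hc
  exact h (swap_apply_of_ne_of_ne hc.1 hc.2)

/-- a transposition is determined by two of the points it moves -/
theorem swap_eq_of_moves {a b p q : X} (hp : swap a b p ≠ p) (hq : swap a b q ≠ q) (hpq : p ≠ q) :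
    swap a b = swap p q := by
  rcases swap_moves hp with rfl | rfl <;> rcases swap_moves hq with rfl | rfl
  · exact absurd rfl hpq
  · rfl
  · exact swap_comm _ _
  · exact absurd rfl hpq

theorem swap_moves_left {a b : X} (h : a ≠ b) : swap a b a ≠ a := by
  rw [swap_apply_left]; exact h.symm

theorem swap_moves_right {a b : X} (h : a ≠ b) : swap a b b ≠ b := by
  rw [swap_apply_right]; exact h

/-- write a transposition with a given moved point first -/
theorem swap_form {a b p : X} (hab : a ≠ b) (hp : swap a b p ≠ p) :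
    ∃ c, p ≠ c ∧ swap a b = swap p c := by
  rcases swap_moves hp with rfl | rfl
  · exact ⟨b, hab, rfl⟩
  · exact ⟨a, hab.symm, swap_comm _ _⟩

theorem braid (x y z : X) (h1 : x ≠ z) (h2 : y ≠ z) :
    swap x y * swap y z * swap x y = swap x z := by
  have h := conj_swap (swap x y) y z
  rw [swap_inv, swap_apply_right, swap_apply_of_ne_of_ne h1.symm h2.symm] at h
  exact h

section

variable {G H : Subgroup (Perm X)} (hG : Big ℓ G) (hH : Big ℓ H) (hF : Fat ℓ) (φ : G ≃* H)

open Classical in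
/-- the transposition as an element of the group -/
noncomputable def tr (hG : Big ℓ G) (x y : X) : G :=
  if h : 3 ≤ ℓ x ∧ ℓ x = ℓ y then ⟨swap x y, hG.swap x y h.1 h.2⟩ else 1

theorem tr_coe {x y : X} (h1 : 3 ≤ ℓ x) (h2 : ℓ x = ℓ y) : (tr hG x y : Perm X) = swap x y := by
  unfold tr
  rw [dif_pos ⟨h1, h2⟩]

/-- the image of a transposition -/
noncomputable def im (x y : X) : Perm X := (φ (tr hG x y) : Perm X)

variable {x y z : X} (h3 : 3 ≤ ℓ x) (hy : ℓ y = ℓ x) (hz : ℓ z = ℓ x)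

include hH hF in
theorem im_swap (h3 : 3 ≤ ℓ x) (hy : ℓ y = ℓ x) (hxy : x ≠ y) :
    ∃ a b, a ≠ b ∧ 3 ≤ ℓ a ∧ ℓ a = ℓ b ∧ im hG φ x y = swap a b := by
  have h1 : T3 (tr hG x y) := by
    have := swap_T3 hG h3 hy.symm hxy
    unfold tr
    rw [dif_pos ⟨h3, hy.symm⟩]
    exact this
  exact T3_swap hH hF _ (h1.map φ)

theorem im_comm (h3 : 3 ≤ ℓ x) (hy : ℓ y = ℓ x) : im hG φ x y = im hG φ y x := by
  have : tr hG x y = tr hG y x := by
    apply Subtype.ext
    rw [tr_coe hG h3 hy.symm, tr_coe hG (by omega) hy, swap_comm]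
  unfold im
  rw [this]

theorem im_braid (h3 : 3 ≤ ℓ x) (hy : ℓ y = ℓ x) (hz : ℓ z = ℓ x) (hxz : x ≠ z)
    (hyz : y ≠ z) : im hG φ x y * im hG φ y z * im hG φ x y = im hG φ x z := by
  have : tr hG x y * tr hG y z * tr hG x y = tr hG x z := by
    apply Subtype.ext
    simp only [Subgroup.coe_mul]
    rw [tr_coe hG h3 hy.symm, tr_coe hG (by omega) (by omega), tr_coe hG h3 hz.symm]
    exact braid x y z hxz hyz
  unfold im
  rw [← this, map_mul, map_mul]
  rfl

theorem im_inj {u v : X} (h3 : 3 ≤ ℓ x) (hy : ℓ y = ℓ x) (h3' : 3 ≤ ℓ u) (hv : ℓ v = ℓ u)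
    (h : im hG φ x y = im hG φ u v) : swap x y = swap u v := by
  have h1 : φ (tr hG x y) = φ (tr hG u v) := Subtype.ext h
  have h2 := congrArg Subtype.val (φ.injective h1)
  rwa [tr_coe hG h3 hy.symm, tr_coe hG h3' hv.symm] at h2

theorem im_commute {u v : X} (h3 : 3 ≤ ℓ x) (hy : ℓ y = ℓ x) (h3' : 3 ≤ ℓ u) (hv : ℓ v = ℓ u) :
    im hG φ x y * im hG φ u v = im hG φ u v * im hG φ x y ↔
      swap x y * swap u v = swap u v * swap x y := by
  have e1 : im hG φ x y * im hG φ u v = (φ (tr hG x y * tr hG u v) : Perm X) := by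
    rw [map_mul]; rfl
  have e2 : im hG φ u v * im hG φ x y = (φ (tr hG u v * tr hG x y) : Perm X) := by
    rw [map_mul]; rfl
  rw [e1, e2]
  constructor
  · intro h
    have h2 := congrArg Subtype.val (φ.injective (Subtype.ext h))
    simp only [Subgroup.coe_mul] at h2
    rwa [tr_coe hG h3 hy.symm, tr_coe hG h3' hv.symm] at h2
  · intro h
    have : tr hG x y * tr hG u v = tr hG u v * tr hG x y := by
      apply Subtype.ext
      simp only [Subgroup.coe_mul]
      rw [tr_coe hG h3 hy.symm, tr_coe hG h3' hv.symm]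
      exact h
    rw [this]

theorem im_conj (g : G) (h3 : 3 ≤ ℓ x) (hy : ℓ y = ℓ x) :
    (φ g : Perm X) * im hG φ x y * (φ g : Perm X)⁻¹ =
      im hG φ ((g : Perm X) x) ((g : Perm X) y) := by
  have : g * tr hG x y * g⁻¹ = tr hG ((g : Perm X) x) ((g : Perm X) y) := by
    apply Subtype.ext
    simp only [Subgroup.coe_mul, Subgroup.coe_inv]
    rw [tr_coe hG h3 hy.symm, tr_coe hG (by rw [hG.len _ g.2]; exact h3)
      (by rw [hG.len _ g.2, hG.len _ g.2, hy]), conj_swap]
  unfold im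
  rw [← this, map_mul, map_mul, map_inv]
  rfl

include hH hF in
/-- transpositions with one common point have images with one common point -/
theorem im_share (h3 : 3 ≤ ℓ x) (hy : ℓ y = ℓ x) (hz : ℓ z = ℓ x) (hxy : x ≠ y) (hxz : x ≠ z)
    (hyz : y ≠ z) : ∃ p a b, p ≠ a ∧ p ≠ b ∧ a ≠ b ∧ im hG φ x y = swap p a ∧
      im hG φ x z = swap p b := by
  obtain ⟨a, b, hab, _, _, e1⟩ := im_swap hG hH hF φ h3 hy hxy
  obtain ⟨c, d, hcd, _, _, e2⟩ := im_swap hG hH hF φ h3 hz hxz
  -- they do not commute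
  have hnc : ¬ (swap a b * swap c d = swap c d * swap a b) := by
    rw [← e1, ← e2, im_commute hG φ h3 hy h3 hz]
    intro h
    have := congrArg (fun e : Perm X => e x) h
    simp only [Perm.mul_apply, swap_apply_left] at this
    rw [swap_apply_of_ne_of_ne hxz.symm hyz.symm, swap_apply_of_ne_of_ne hxy.symm hyz] at this
    exact hyz this.symm
  -- a common point
  obtain ⟨p, hp1, hp2⟩ : ∃ p, swap a b p ≠ p ∧ swap c d p ≠ p := by
    by_contra hc
    push Not at hc
    have hd : (swap a b).Disjoint (swap c d) := by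
      intro q
      by_cases hq : swap a b q = q
      · exact Or.inl hq
      · exact Or.inr (hc q hq)
    exact hnc hd.commute
  obtain ⟨a', ha', f1⟩ := swap_form hab hp1
  obtain ⟨b', hb', f2⟩ := swap_form hcd hp2
  refine ⟨p, a', b', ha', hb', ?_, e1.trans f1, e2.trans f2⟩
  rintro rfl
  exact hnc (by rw [f1, f2])

/-- all transpositions with the point `x` are mapped to transpositions with the point `p` -/
def Mv (x p : X) : Prop := ∀ y, ℓ y = ℓ x → y ≠ x → im hG φ x y p ≠ p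

include hF in
theorem exists_two (h3 : 3 ≤ ℓ x) : ∃ y z, ℓ y = ℓ x ∧ ℓ z = ℓ x ∧ x ≠ y ∧ x ≠ z ∧ y ≠ z := by
  obtain ⟨y, hy, hyl⟩ := hF x h3 {x} (by simp)
  obtain ⟨z, hz, hzl⟩ := hF x h3 {x, y} (Finset.card_le_two.trans (by norm_num))
  simp only [Finset.mem_singleton] at hy
  simp only [Finset.mem_insert, Finset.mem_singleton, not_or] at hz
  exact ⟨y, z, hyl, hzl, Ne.symm hy, Ne.symm hz.1, Ne.symm hz.2⟩

include hH hF in
theorem exists_Mv (h3 : 3 ≤ ℓ x) : ∃ p, Mv hG φ x p := by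
  obtain ⟨y, z, hy, hz, hxy, hxz, hyz⟩ := exists_two hF h3
  obtain ⟨p, a, b, hpa, hpb, hab, e1, e2⟩ := im_share hG hH hF φ h3 hy hz hxy hxz hyz
  refine ⟨p, fun w hw hwx => ?_⟩
  by_cases h1 : w = y
  · rw [h1, e1]; exact swap_moves_left hpa
  by_cases h2 : w = z
  · rw [h2, e2]; exact swap_moves_left hpb
  intro hfix
  -- the image of `(x w)` moves `a` and `b`
  obtain ⟨p1, a1, b1, k1, k2, k3, f1, f2⟩ :=
    im_share hG hH hF φ h3 hy hw hxy (Ne.symm hwx) (Ne.symm h1)
  obtain ⟨p2, a2, b2, m1, m2, m3, g1, g2⟩ :=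
    im_share hG hH hF φ h3 hz hw hxz (Ne.symm hwx) (Ne.symm h2)
  have c1 : p1 = a := by
    have : swap p a p1 ≠ p1 := by rw [← e1, f1]; exact swap_moves_left k1
    rcases swap_moves this with h | h
    · exfalso
      rw [f2, h] at hfix
      exact swap_moves_left (by rw [← h]; exact k2) hfix
    · exact h
  have c2 : p2 = b := by
    have : swap p b p2 ≠ p2 := by rw [← e2, g1]; exact swap_moves_left m1
    rcases swap_moves this with h | h
    · exfalso
      rw [g2, h] at hfix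
      exact swap_moves_left (by rw [← h]; exact m2) hfix
    · exact h
  have d1 : im hG φ x w a ≠ a := by rw [f2, c1]; exact swap_moves_left (by rw [← c1]; exact k2)
  have d2 : im hG φ x w b ≠ b := by rw [g2, c2]; exact swap_moves_left (by rw [← c2]; exact m2)
  have d3 : im hG φ x w = swap a b := by
    rw [f2] at d1 d2 ⊢
    exact swap_eq_of_moves d1 d2 hab
  have d4 : im hG φ y z = swap a b := by
    have := im_braid hG φ (x := y) (y := x) (z := z) (by omega) (by omega) (by omega) hyz hxz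
    rw [← this, ← im_comm hG φ h3 hy, e1, e2]
    have := braid a p b hab hpb
    rw [swap_comm a p] at this
    exact this
  have d5 := im_inj hG φ h3 hw (by omega) (by omega) (d3.trans d4.symm)
  have d6 : swap y z x ≠ x := by rw [← d5]; exact swap_moves_left (Ne.symm hwx)
  rcases swap_moves d6 with h | h
  · exact hxy h
  · exact hxz h

include hH hF in
theorem Mv_unique (h3 : 3 ≤ ℓ x) {p q : X} (hp : Mv hG φ x p) (hq : Mv hG φ x q) : p = q := by
  by_contra hne
  obtain ⟨y, z, hy, hz, hxy, hxz, hyz⟩ := exists_two hF h3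
  obtain ⟨a, b, hab, _, _, e1⟩ := im_swap hG hH hF φ h3 hy hxy
  obtain ⟨c, d, hcd, _, _, e2⟩ := im_swap hG hH hF φ h3 hz hxz
  have h1 := hp y hy hxy.symm
  have h2 := hq y hy hxy.symm
  have h4 := hp z hz hxz.symm
  have h5 := hq z hz hxz.symm
  rw [e1] at h1 h2
  rw [e2] at h4 h5
  have e : im hG φ x y = im hG φ x z := by
    rw [e1, e2, swap_eq_of_moves h1 h2 hne, swap_eq_of_moves h4 h5 hne]
  have h6 := im_inj hG φ h3 hy h3 hz e
  have h7 := congrArg (fun e : Perm X => e x) h6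
  simp only [swap_apply_left] at h7
  exact hyz h7

include hH hF in
theorem Mv_inj (h3 : 3 ≤ ℓ x) (hy : ℓ y = ℓ x) (hxy : x ≠ y) {p : X} (hp : Mv hG φ x p)
    (hq : Mv hG φ y p) : False := by
  obtain ⟨z, hz, hzl⟩ := hF x h3 {x, y} (Finset.card_le_two.trans (by norm_num))
  simp only [Finset.mem_insert, Finset.mem_singleton, not_or] at hz
  obtain ⟨z1, z2⟩ := hz
  obtain ⟨a, b, hab, _, _, e1⟩ := im_swap hG hH hF φ h3 hy hxy
  obtain ⟨c, d, hcd, _, _, e2⟩ := im_swap hG hH hF φ (x := y) (y := z) (by omega) (by omega)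
    (Ne.symm z2)
  have h1 := hp y hy hxy.symm
  have h2 := hq z (by omega) z2
  rw [e1] at h1
  rw [e2] at h2
  obtain ⟨a', ha', f1⟩ := swap_form hab h1
  obtain ⟨b', hb', f2⟩ := swap_form hcd h2
  have hne : a' ≠ b' := by
    rintro rfl
    have e : im hG φ x y = im hG φ y z := by rw [e1, e2, f1, f2]
    have h6 := im_inj hG φ h3 hy (by omega) (by omega) e
    have h7 := congrArg (fun e : Perm X => e x) h6
    simp only [swap_apply_left] at h7
    rw [swap_apply_of_ne_of_ne hxy (Ne.symm z1)] at h7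
    exact hxy h7.symm
  have h8 := im_braid hG φ h3 hy hzl (Ne.symm z1) (Ne.symm z2)
  rw [e1, e2, f1, f2] at h8
  have h9 := braid a' p b' hne hb'
  rw [swap_comm a' p] at h9
  rw [h9] at h8
  have h10 := hp z hzl z1
  rw [← h8] at h10
  rcases swap_moves h10 with h | h
  · exact ha' h
  · exact hb' h

include hH hF in
theorem Mv_im (h3 : 3 ≤ ℓ x) (hy : ℓ y = ℓ x) (hxy : x ≠ y) {p q : X} (hp : Mv hG φ x p)
    (hq : Mv hG φ y q) : p ≠ q ∧ im hG φ x y = swap p q := by
  have hne : p ≠ q := by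
    rintro rfl
    exact Mv_inj hG hH hF φ h3 hy hxy hp hq
  obtain ⟨a, b, hab, _, _, e1⟩ := im_swap hG hH hF φ h3 hy hxy
  have h1 := hp y hy hxy.symm
  have h2 := hq x hy.symm hxy
  rw [← im_comm hG φ h3 hy] at h2
  rw [e1] at h1 h2 ⊢
  exact ⟨hne, swap_eq_of_moves h1 h2 hne⟩

include hH hF in
theorem Mv_inj' {u : X} (h3 : 3 ≤ ℓ x) (h3' : 3 ≤ ℓ u) (hxu : x ≠ u) {p : X}
    (hp : Mv hG φ x p) (hq : Mv hG φ u p) : False := by
  by_cases hl : ℓ u = ℓ x
  · exact Mv_inj hG hH hF φ h3 hl hxu hp hq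
  obtain ⟨y, _, hy, _, hxy, _, _⟩ := exists_two hF h3
  obtain ⟨v, _, hv, _, huv, _, _⟩ := exists_two hF h3'
  obtain ⟨a, b, hab, _, _, e1⟩ := im_swap hG hH hF φ h3 hy hxy
  obtain ⟨c, d, hcd, _, _, e2⟩ := im_swap hG hH hF φ h3' hv huv
  have h1 := hp y hy hxy.symm
  have h2 := hq v hv huv.symm
  rw [e1] at h1
  rw [e2] at h2
  obtain ⟨a', ha', f1⟩ := swap_form hab h1
  obtain ⟨b', hb', f2⟩ := swap_form hcd h2
  have ne : ∀ a b : X, ℓ a = ℓ x → ℓ b = ℓ u → a ≠ b := fun a b ha hb e => hl (by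
    rw [← hb, ← e, ha])
  have hcomm : swap x y * swap u v = swap u v * swap x y := by
    have hd : (swap x y).Disjoint (swap u v) := by
      intro q
      by_cases hq : ℓ q = ℓ x
      · right
        exact swap_apply_of_ne_of_ne (ne _ _ hq rfl) (ne _ _ hq hv)
      · left
        refine swap_apply_of_ne_of_ne ?_ ?_
        · rintro rfl; exact hq rfl
        · rintro rfl; exact hq hy
    exact hd.commute
  rw [← im_commute hG φ h3 hy h3' hv, e1, e2, f1, f2] at hcomm
  by_cases hne : a' = b'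
  · have e : im hG φ x y = im hG φ u v := by rw [e1, e2, f1, f2, hne]
    have h6 := im_inj hG φ h3 hy h3' hv e
    have h7 : swap u v x ≠ x := by rw [← h6]; exact swap_moves_left hxy
    rcases swap_moves h7 with h | h
    · exact hxu h
    · exact ne _ _ rfl hv h
  · have := congrArg (fun e : Perm X => e p) hcomm
    simp only [Perm.mul_apply, swap_apply_left] at this
    rw [swap_apply_of_ne_of_ne hb'.symm (Ne.symm hne), swap_apply_of_ne_of_ne ha'.symm hne] at this
    exact hne this.symm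

include hH hF in
theorem Mv_len (h3 : 3 ≤ ℓ x) {p : X} (hp : Mv hG φ x p) : 3 ≤ ℓ p := by
  obtain ⟨y, _, hy, _, hxy, _, _⟩ := exists_two hF h3
  have h1 := hp y hy hxy.symm
  by_contra hlt
  exact h1 (hH.fix _ (φ (tr hG x y)).2 p (by omega))

include hH in
theorem Mv_map (g : G) (h3 : 3 ≤ ℓ x) {p : X} (hp : Mv hG φ x p) :
    Mv hG φ ((g : Perm X) x) ((φ g : Perm X) p) := by
  intro z hz hzx
  have e : (g : Perm X) ((g : Perm X)⁻¹ z) = z := (g : Perm X).apply_symm_apply z
  have hl := hG.len _ g.2 ((g : Perm X)⁻¹ z)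
  rw [e] at hl
  have hl2 := hG.len _ g.2 x
  have h1 : im hG φ x ((g : Perm X)⁻¹ z) p ≠ p := hp _ (by omega) (by
    intro h
    apply hzx
    rw [← h, e])
  have h2 := im_conj hG φ (y := (g : Perm X)⁻¹ z) g h3 (by omega)
  rw [e] at h2
  rw [← h2, conj_apply]
  intro h
  exact h1 ((φ g : Perm X).injective h)

include hH hF in
/-- the inverse isomorphism moves back -/
theorem Mv_symm (h3 : 3 ≤ ℓ x) {p : X} (hp : Mv hG φ x p) : Mv hH φ.symm p x := by
  have hp3 := Mv_len hG hH hF φ h3 hp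
  intro q hq hqp
  obtain ⟨a, b, hab, ha3, hb, e1⟩ := im_swap hH hG hF φ.symm hp3 hq (Ne.symm hqp)
  rw [e1]
  obtain ⟨a', ha'⟩ := exists_Mv hG hH hF φ ha3
  obtain ⟨b', hb'⟩ := exists_Mv hG hH hF φ (x := b) (by omega)
  have h1 := (Mv_im hG hH hF φ ha3 hb.symm hab ha' hb').2
  have h2 : tr hG a b = φ.symm (tr hH p q) := Subtype.ext ((tr_coe hG ha3 hb).trans e1.symm)
  have h4 : im hG φ a b = swap p q := by
    unfold im
    rw [h2, MulEquiv.apply_symm_apply, tr_coe hH hp3 hq.symm]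
  have h5 : swap a' b' p ≠ p := by rw [← h1, h4]; exact swap_moves_left (Ne.symm hqp)
  rcases swap_moves h5 with h | h
  · have : x = a := by
      by_contra hne
      exact Mv_inj' hG hH hF φ h3 ha3 hne hp (by rw [h]; exact ha')
    rw [this]; exact swap_moves_left hab
  · have : x = b := by
      by_contra hne
      exact Mv_inj' hG hH hF φ h3 (by omega) hne hp (by rw [h]; exact hb')
    rw [this]; exact swap_moves_right hab

include hG hH hF in
/-- **Isomorphisms are spatial.** -/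
theorem spatial : ∃ s : Perm X, (∀ x, ℓ x < 3 → s x = x) ∧
    (∀ x y, 3 ≤ ℓ x → ℓ x = ℓ y → ℓ (s x) = ℓ (s y)) ∧
    ∀ g : G, (φ g : Perm X) = s * (g : Perm X) * s⁻¹ := by
  classical
  choose f hf using fun x : {x : X // 3 ≤ ℓ x} => exists_Mv hG hH hF φ x.2
  choose f' hf' using fun x : {x : X // 3 ≤ ℓ x} => exists_Mv hH hG hF φ.symm x.2
  let s : X → X := fun x => if h : 3 ≤ ℓ x then f ⟨x, h⟩ else x
  let s' : X → X := fun x => if h : 3 ≤ ℓ x then f' ⟨x, h⟩ else x
  have hs : ∀ x, 3 ≤ ℓ x → Mv hG φ x (s x) := fun x h => by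
    have := hf ⟨x, h⟩
    simp only [s, dif_pos h]
    exact this
  have hs' : ∀ x, 3 ≤ ℓ x → Mv hH φ.symm x (s' x) := fun x h => by
    have := hf' ⟨x, h⟩
    simp only [s', dif_pos h]
    exact this
  have hs0 : ∀ x, ¬ 3 ≤ ℓ x → s x = x := fun x h => by simp only [s, dif_neg h]
  have hs0' : ∀ x, ¬ 3 ≤ ℓ x → s' x = x := fun x h => by simp only [s', dif_neg h]
  have h1 : ∀ x, s' (s x) = x := by
    intro x
    by_cases h : 3 ≤ ℓ x
    · have a1 := Mv_symm hG hH hF φ h (hs x h)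
      have a2 := Mv_len hG hH hF φ h (hs x h)
      exact Mv_unique hH hG hF φ.symm a2 (hs' _ a2) a1
    · rw [hs0 x h, hs0' x h]
  have h2 : ∀ x, s (s' x) = x := by
    intro x
    by_cases h : 3 ≤ ℓ x
    · have a1 := Mv_symm hH hG hF φ.symm h (hs' x h)
      have a2 := Mv_len hH hG hF φ.symm h (hs' x h)
      rw [MulEquiv.symm_symm] at a1
      exact Mv_unique hG hH hF φ a2 (hs _ a2) a1
    · rw [hs0' x h, hs0 x h]
  refine ⟨⟨s, s', h1, h2⟩, fun x hx => hs0 x (by omega), ?_, fun g => ?_⟩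
  · intro x y hx hxy
    by_cases h : x = y
    · rw [h]
    · obtain ⟨a1, a2⟩ := Mv_im hG hH hF φ hx hxy.symm h (hs x hx) (hs y (by omega))
      have a3 := hH.len _ (φ (tr hG x y)).2 (s x)
      change ℓ (im hG φ x y (s x)) = _ at a3
      rw [a2, swap_apply_left] at a3
      exact a3.symm
  · rw [eq_mul_inv_iff_mul_eq]
    refine Equiv.ext fun x => ?_
    change (φ g : Perm X) (s x) = s ((g : Perm X) x)
    have hl := hG.len _ g.2 x
    by_cases h : 3 ≤ ℓ x
    · have a1 := Mv_map hG hH φ g h (hs x h)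
      exact Mv_unique hG hH hF φ (by omega) a1 (hs _ (by omega))
    · rw [hs0 x h, hG.fix _ g.2 x (by omega), hs0 x h, hH.fix _ (φ g).2 x (by omega)]

end

end Pool.Agent.W903.Rig
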