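import Pool.Agent.W903.Rig.Spatial
import Pool.Agent.W903.GP.Hier

/-!
# The spatial theorem for bit strings; rotation and test
-/

namespace Pool.Agent.W903.Rig

open Equiv Pool.Agent.NPC Pool.Agent.NPC.PIso Pool.Agent.W903.GP

theorem fat_length : Fat (List.length : List Bool → ℕ) := by
  intro x hx F hF
  by_contra hc
  push Not at hc
  -- all strings of this length are in `F`
  have h1 : (Finset.univ : Finset (List.Vector Bool x.length)).card ≤ F.card := by
    refine Finset.card_le_card_of_injOn (fun v => v.toList) ?_ ?_
    · intro v _
      by_contra hv
      exact hc v.toList hv (by simp)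
    · intro v _ w _ h
      exact List.Vector.eq _ _ h
  rw [Finset.card_univ, card_vector, Fintype.card_bool] at h1
  have h2 : 2 ^ 3 ≤ 2 ^ x.length := Nat.pow_le_pow_right (by norm_num) hx
  omega

/-- the permutation of a spatial isomorphism preserves the lengths -/
theorem length_of_fibres {s : Perm (List Bool)} (h0 : ∀ x, x.length < 3 → s x = x)
    (h1 : ∀ x y : List Bool, 3 ≤ x.length → x.length = y.length → (s x).length = (s y).length)
    (x : List Bool) : (s x).length = x.length := by
  -- lengths do not decrease
  have hle : ∀ x : List Bool, 3 ≤ x.length → x.length ≤ (s x).length := by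
    intro x hx
    have h2 : Fintype.card (List.Vector Bool x.length) ≤
        Fintype.card (List.Vector Bool (s x).length) := by
      refine Fintype.card_le_of_injective
        (fun v => ⟨s v.toList, (h1 x v.toList hx (by simp)).symm⟩) ?_
      intro v w h
      have h3 := congrArg Subtype.val h
      exact List.Vector.eq _ _ (s.injective h3)
    rw [card_vector, card_vector, Fintype.card_bool] at h2
    exact (Nat.pow_le_pow_iff_right (by norm_num)).1 h2
  have key : ∀ n, ∀ x : List Bool, x.length = n → (s x).length = n := by
    intro n
    induction n using Nat.strong_induction_on with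
    | _ n ih =>
      intro x hx
      by_cases hn : n < 3
      · rw [h0 x (by omega), hx]
      · -- the preimage of `x`
        have e : s (s.symm x) = x := s.apply_symm_apply x
        have a1 : 3 ≤ (s.symm x).length := by
          by_contra hlt
          have := h0 (s.symm x) (by omega)
          rw [e] at this
          rw [← this] at hlt
          omega
        have a2 := hle _ a1
        rw [e, hx] at a2
        rcases Nat.lt_or_ge (s.symm x).length n with h | h
        · have := ih _ h _ rfl
          rw [e, hx] at this
          omega
        · have a3 : (s.symm x).length = n := by omega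
          have := h1 x (s.symm x) (by omega) (by omega)
          rw [e] at this
          omega
  exact key _ x rfl

/-- rotation of strings with at least three letters -/
def rotF (x : List Bool) : List Bool := if 3 ≤ x.length then x.tail ++ x.take 1 else x

/-- the inverse rotation -/
def rotB (x : List Bool) : List Bool :=
  if 3 ≤ x.length then x.drop (x.length - 1) ++ x.take (x.length - 1) else x

theorem rotF_length (x : List Bool) : (rotF x).length = x.length := by
  unfold rotF
  split
  · simp; omega
  · rfl

theorem rotB_length (x : List Bool) : (rotB x).length = x.length := by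
  unfold rotB
  split
  · simp
  · rfl

theorem rotB_rotF (x : List Bool) : rotB (rotF x) = x := by
  by_cases h : 3 ≤ x.length
  · have hl := rotF_length x
    unfold rotB
    rw [hl, if_pos h]
    unfold rotF
    rw [if_pos h]
    match x, h with
    | b :: t, h =>
      simp only [List.tail_cons, List.take_succ_cons, List.take_zero, List.length_cons,
        Nat.add_sub_cancel]
      rw [List.drop_left, List.take_left]
      rfl
  · unfold rotB rotF
    rw [if_neg h, if_neg h]

theorem rotF_rotB (x : List Bool) : rotF (rotB x) = x := by
  by_cases h : 3 ≤ x.length
  · have hl := rotB_length x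
    unfold rotF
    rw [hl, if_pos h]
    unfold rotB
    rw [if_pos h]
    have hd : (x.drop (x.length - 1)).length = 1 := by rw [List.length_drop]; omega
    obtain ⟨b, hb⟩ := List.length_eq_one_iff.1 hd
    rw [hb]
    simp only [List.cons_append, List.nil_append, List.tail_cons, List.take_succ_cons,
      List.take_zero]
    rw [← hb, List.take_append_drop]
  · unfold rotB rotF
    rw [if_neg h, if_neg h]

/-- rotation as a permutation -/
def rotE : Perm (List Bool) := ⟨rotF, rotB, rotB_rotF, rotF_rotB⟩

/-- flip the second bit if the first bit is `true` -/
def tstF (x : List Bool) : List Bool :=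
  match x with
  | true :: c :: d :: t => true :: (!c) :: d :: t
  | x => x

theorem tstF_tstF (x : List Bool) : tstF (tstF x) = x := by
  match x with
  | [] => rfl
  | [a] => cases a <;> rfl
  | [a, _] => cases a <;> rfl
  | true :: c :: d :: t => simp [tstF]
  | false :: c :: d :: t => rfl

theorem tstF_length (x : List Bool) : (tstF x).length = x.length := by
  match x with
  | [] => rfl
  | [a] => cases a <;> rfl
  | [a, _] => cases a <;> rfl
  | true :: c :: d :: t => simp [tstF]
  | false :: c :: d :: t => rfl

/-- the test as a permutation -/
def tstE : Perm (List Bool) := ⟨tstF, tstF, tstF_tstF, tstF_tstF⟩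

theorem tstF_ne (x : List Bool) (h : 3 ≤ x.length) :
    decide (tstF x ≠ x) = x.getD 0 false := by
  match x, h with
  | true :: c :: d :: t, _ => cases c <;> simp [tstF]
  | false :: c :: d :: t, _ => simp [tstF]

theorem rotF_getD (x : List Bool) (h : 3 ≤ x.length) (j : ℕ) (hj : j + 1 < x.length) :
    (rotF x).getD j false = x.getD (j + 1) false := by
  unfold rotF
  rw [if_pos h]
  match x, h with
  | b :: t, h =>
    simp only [List.tail_cons, List.take_succ_cons, List.take_zero]
    have hj' : j < t.length := by simpa using hj
    rw [List.getD_append _ _ _ _ hj']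
    simp

theorem rotF_iter_length (j : ℕ) (x : List Bool) : (rotF^[j] x).length = x.length :=
  iter_length rotF_length j x

/-- the bits of a string through rotation and test -/
theorem bit_eq (x : List Bool) (h : 3 ≤ x.length) (j : ℕ) (hj : j < x.length) :
    decide (tstF (rotF^[j] x) ≠ rotF^[j] x) = x.getD j false := by
  rw [tstF_ne _ (by rw [rotF_iter_length]; exact h)]
  have key : ∀ j i, i + j < x.length → (rotF^[j] x).getD i false = x.getD (i + j) false := by
    intro j
    induction j with
    | zero => intro i _; rfl
    | succ j ih =>
      intro i hi
      rw [Function.iterate_succ_apply', rotF_getD _ (by rw [rotF_iter_length]; exact h) i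
        (by rw [rotF_iter_length]; omega), ih (i + 1) (by omega)]
      congr 1
      omega
  have := key j 0 (by omega)
  rw [Nat.zero_add] at this
  exact this

theorem poly_rotF : Pool.Agent.NPC.Poly rotF := by
  unfold rotF
  refine Poly.ite (Poly.decide_le (pconst 3) (Poly.length pid)) (Poly.append (Poly.tail pid) ?_) pid
  exact Pool.Agent.NPC.Mix.T1.poly_take pid (pconst 1)

theorem poly_rotB : Pool.Agent.NPC.Poly rotB := by
  have h1 : Pool.Agent.NPC.Poly (fun x : List Bool => x.length - 1) :=
    Poly.sub (Poly.length pid) (pconst 1)
  unfold rotB
  refine Poly.ite (Poly.decide_le (pconst 3) (Poly.length pid)) (Poly.append ?_ ?_) pid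
  · exact Pool.Agent.NPC.Mix.T1.poly_drop pid h1
  · exact Pool.Agent.NPC.Mix.T1.poly_take pid h1

theorem poly_tstF : Pool.Agent.NPC.Poly tstF := by
  have h0 : Pool.Agent.NPC.Poly (fun x : List Bool => x.getD 0 false) :=
    Poly.getD pid (pconst 0) (pconst false)
  have h1 : Pool.Agent.NPC.Poly (fun x : List Bool => x.getD 1 false) :=
    Poly.getD pid (pconst 1) (pconst false)
  have h2 : Pool.Agent.NPC.Poly (fun x : List Bool => if 3 ≤ x.length then
      (if x.getD 0 false = true then true :: (!x.getD 1 false) :: x.tail.tail else x) else x) := by
    refine Poly.ite (Poly.decide_le (pconst 3) (Poly.length pid)) ?_ pid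
    refine Poly.ite (Poly.decide_eq h0 (pconst true)) ?_ pid
    exact Poly.cons (pconst true) (Poly.cons (Poly.not h1) (Poly.tail (Poly.tail pid)))
  refine h2.congr fun x => ?_
  match x with
  | [] => rfl
  | [a] => cases a <;> rfl
  | [a, _] => cases a <;> rfl
  | true :: c :: d :: t => simp [tstF]
  | false :: c :: d :: t => simp [tstF]

end Pool.Agent.W903.Rig
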