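import Mathlib

/-!
# Recognising transpositions in a group of fibre-preserving permutations
-/

namespace Pool.Agent.W903.Rig

open Equiv

/-- a `3`-transposition of a group -/
def T3 {Γ : Type} [Group Γ] (t : Γ) : Prop :=
  t ≠ 1 ∧ t * t = 1 ∧ ∀ g : Γ, (t * (g * t * g⁻¹)) ^ 2 = 1 ∨ (t * (g * t * g⁻¹)) ^ 3 = 1

theorem T3.map {Γ Δ : Type} [Group Γ] [Group Δ] (φ : Γ ≃* Δ) {t : Γ} (h : T3 t) : T3 (φ t) := by
  obtain ⟨h1, h2, h3⟩ := h
  refine ⟨fun h => h1 (φ.injective (by rw [h, map_one])), by rw [← map_mul, h2, map_one],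
    fun g => ?_⟩
  obtain ⟨g, rfl⟩ := φ.surjective g
  rcases h3 g with h | h
  · left
    rw [← map_inv, ← map_mul, ← map_mul, ← map_mul, ← map_pow, h, map_one]
  · right
    rw [← map_inv, ← map_mul, ← map_mul, ← map_mul, ← map_pow, h, map_one]

variable {X : Type} [DecidableEq X] {ℓ : X → ℕ}

/-- A group of permutations which preserve `ℓ`, fix the points with `ℓ x < 3`, and contains the
transpositions of the other fibres. -/
structure Big (ℓ : X → ℕ) (G : Subgroup (Perm X)) : Prop where
  len : ∀ f ∈ G, ∀ x, ℓ (f x) = ℓ x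
  fix : ∀ f ∈ G, ∀ x, ℓ x < 3 → f x = x
  swap : ∀ x y, 3 ≤ ℓ x → ℓ x = ℓ y → Equiv.swap x y ∈ G

/-- the fibres have at least eight points -/
def Fat (ℓ : X → ℕ) : Prop := ∀ x, 3 ≤ ℓ x → ∀ F : Finset X, F.card ≤ 7 → ∃ y, y ∉ F ∧ ℓ y = ℓ x

theorem conj_swap (g : Perm X) (x y : X) : g * swap x y * g⁻¹ = swap (g x) (g y) :=
  (swap_apply_apply g x y).symm

theorem swap_mul_swap_order (x y a b : X) :
    (swap x y * swap a b) ^ 2 = 1 ∨ (swap x y * swap a b) ^ 3 = 1 := by
  -- the case of a common point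
  have key : ∀ x y b : X, x ≠ y → x ≠ b → y ≠ b → (swap x y * swap x b) ^ 3 = 1 := by
    intro x y b h1 h2 h3
    have e1 : swap x y * swap x b * swap x y = swap y b := by
      have := conj_swap (swap x y) x b
      rw [swap_inv, swap_apply_left, swap_apply_of_ne_of_ne h2.symm h3.symm] at this
      exact this
    have e2 : swap x b * swap x y * swap x b = swap b y := by
      have := conj_swap (swap x b) x y
      rw [swap_inv, swap_apply_left, swap_apply_of_ne_of_ne h1.symm h3] at this
      exact this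
    have e3 : (swap x y * swap x b) ^ 3 =
        (swap x y * swap x b * swap x y) * (swap x b * swap x y * swap x b) := by
      rw [pow_succ, pow_succ, pow_one]; group
    rw [e3, e1, e2, swap_comm b y, swap_mul_self]
  by_cases hab : a = b
  · left
    rw [hab, swap_self, show Equiv.refl X = (1 : Perm X) from rfl, mul_one, sq, swap_mul_self]
  by_cases hxy : x = y
  · left
    rw [hxy, swap_self, show Equiv.refl X = (1 : Perm X) from rfl, one_mul, sq, swap_mul_self]
  by_cases h1 : a = x
  · subst h1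
    by_cases h2 : b = y
    · subst h2
      left
      rw [swap_mul_self, one_pow]
    · right
      exact key a y b hxy hab (Ne.symm h2)
  by_cases h2 : b = y
  · subst h2
    right
    rw [swap_comm x b, swap_comm a b]
    exact key b x a (Ne.symm hxy) (Ne.symm hab) (Ne.symm h1)
  by_cases h3 : a = y
  · subst h3
    by_cases h4 : b = x
    · subst h4
      left
      rw [swap_comm, swap_mul_self, one_pow]
    · right
      rw [swap_comm x a]
      exact key a x b h1 hab (Ne.symm h4)
  by_cases h4 : b = x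
  · subst h4
    right
    rw [swap_comm a b]
    exact key b y a hxy (Ne.symm hab) (Ne.symm h3)
  left
  have hd : (swap x y).Disjoint (swap a b) := by
    intro z
    by_cases hz : z = x ∨ z = y
    · right
      rcases hz with rfl | rfl
      · exact swap_apply_of_ne_of_ne (Ne.symm h1) (Ne.symm h4)
      · exact swap_apply_of_ne_of_ne (Ne.symm h3) (Ne.symm h2)
    · left
      push Not at hz
      exact swap_apply_of_ne_of_ne hz.1 hz.2
  rw [hd.commute.mul_pow, sq, sq, swap_mul_self, swap_mul_self, one_mul]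

theorem swap_T3 {G : Subgroup (Perm X)} (hG : Big ℓ G) {x y : X} (hx : 3 ≤ ℓ x) (hxy : ℓ x = ℓ y)
    (hne : x ≠ y) : T3 (⟨swap x y, hG.swap x y hx hxy⟩ : G) := by
  refine ⟨fun h => ?_, Subtype.ext (swap_mul_self x y), fun g => ?_⟩
  · have h1 := congrArg Subtype.val h
    have h2 := congrArg (fun e : Perm X => e x) h1
    simp only [swap_apply_left, Subgroup.coe_one, Perm.coe_one, id_eq] at h2
    exact hne h2.symm
  · rcases swap_mul_swap_order x y ((g : Perm X) x) ((g : Perm X) y) with h | h
    · left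
      refine Subtype.ext ?_
      rw [← conj_swap] at h
      exact h
    · right
      refine Subtype.ext ?_
      rw [← conj_swap] at h
      exact h

omit [DecidableEq X] in
theorem conj_apply (g h : Perm X) (p : X) : (g * h * g⁻¹) (g p) = g (h p) := by
  rw [Perm.mul_apply, Perm.mul_apply]
  exact congrArg (fun z => g (h z)) (g.symm_apply_apply p)

section

variable {H : Subgroup (Perm X)} (hH : Big ℓ H) (hF : Fat ℓ) {h : Perm X} (hh : h ∈ H)
  (h2 : ∀ p, h (h p) = p)
  (h3 : ∀ g ∈ H, (h * (g * h * g⁻¹)) ^ 2 = 1 ∨ (h * (g * h * g⁻¹)) ^ 3 = 1)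

omit [DecidableEq X] in
include h3 in
/-- evaluating the condition -/
theorem T3_eval (g : Perm X) (hg : g ∈ H) {p q : X}
    (hp : (h * (g * h * g⁻¹)) ((h * (g * h * g⁻¹)) p) ≠ p)
    (hq : (h * (g * h * g⁻¹)) ((h * (g * h * g⁻¹)) ((h * (g * h * g⁻¹)) q)) ≠ q) : False := by
  rcases h3 g hg with h | h
  · apply hp
    have := congrArg (fun e : Perm X => e p) h
    rw [sq] at this
    exact this
  · apply hq
    have := congrArg (fun e : Perm X => e q) h
    rw [pow_succ, sq] at this
    exact this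

include hH hF hh h2 h3 in
/-- only two points of a fibre are moved -/
theorem same_fibre {x y : X} (hx : h x ≠ x) (hy : h y ≠ y) (hl : ℓ y = ℓ x) :
    y = x ∨ y = h x := by
  by_contra hc
  push Not at hc
  obtain ⟨c1, c2⟩ := hc
  have hx3 : 3 ≤ ℓ x := by
    by_contra hlt
    exact hx (hH.fix h hh x (by omega))
  have c3 : h y ≠ x := fun e => c2 (by rw [← e, h2])
  have c4 : h y ≠ h x := fun e => c1 (h.injective e)
  have hlx : ℓ (h x) = ℓ x := hH.len h hh x
  have hly : ℓ (h y) = ℓ x := by rw [hH.len h hh y, hl]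
  -- three-cycles
  have three : ∀ z, ℓ z = ℓ x → h z = z → False := by
    intro z hz hzf
    have z1 : z ≠ x := fun e => hx (by rw [← e]; exact hzf)
    have z2 : z ≠ y := fun e => hy (by rw [← e]; exact hzf)
    have z3 : z ≠ h x := fun e => hx (by rw [e, h2] at hzf; exact hzf.symm)
    have z4 : z ≠ h y := fun e => hy (by rw [e, h2] at hzf; exact hzf.symm)
    have hg : swap x y * swap y z ∈ H :=
      H.mul_mem (hH.swap x y hx3 hl.symm) (hH.swap y z (by omega) (by omega))
    have gx : (swap x y * swap y z) x = y := by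
      rw [Perm.mul_apply, swap_apply_of_ne_of_ne (Ne.symm c1) (Ne.symm z1), swap_apply_left]
    have gy : (swap x y * swap y z) y = z := by
      rw [Perm.mul_apply, swap_apply_left, swap_apply_of_ne_of_ne z1 z2]
    have gz : (swap x y * swap y z) z = x := by
      rw [Perm.mul_apply, swap_apply_right, swap_apply_right]
    have gx' : (swap x y * swap y z) (h x) = h x := by
      rw [Perm.mul_apply, swap_apply_of_ne_of_ne (Ne.symm c2) (Ne.symm z3),
        swap_apply_of_ne_of_ne hx (Ne.symm c2)]
    have gy' : (swap x y * swap y z) (h y) = h y := by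
      rw [Perm.mul_apply, swap_apply_of_ne_of_ne hy (Ne.symm z4),
        swap_apply_of_ne_of_ne c3 hy]
    generalize swap x y * swap y z = g at hg gx gy gz gx' gy'
    have k1 : (h * (g * h * g⁻¹)) x = h x := by
      have := conj_apply g h z
      rw [gz, hzf, gz] at this
      rw [Perm.mul_apply, this]
    have k2 : (h * (g * h * g⁻¹)) (h x) = h y := by
      have := conj_apply g h (h x)
      rw [gx', h2, gx] at this
      rw [Perm.mul_apply, this]
    have k3 : (h * (g * h * g⁻¹)) (h y) = z := by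
      have := conj_apply g h (h y)
      rw [gy', h2, gy] at this
      rw [Perm.mul_apply, this, hzf]
    refine T3_eval h3 g hg (p := x) (q := x) ?_ ?_
    · rw [k1, k2]; exact c3
    · rw [k1, k2, k3]; exact z1
  obtain ⟨z, hz, hzl⟩ := hF x hx3 {x, h x, y, h y} (by
    exact (Finset.card_le_four).trans (by norm_num))
  simp only [Finset.mem_insert, Finset.mem_singleton, not_or] at hz
  obtain ⟨z1, z2, z3, z4⟩ := hz
  have hzm : h z ≠ z := fun e => three z hzl e
  obtain ⟨w, hw, hwl⟩ := hF x hx3 ({x, h x, y, h y} ∪ {z, h z}) (by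
    refine (Finset.card_union_le _ _).trans ?_
    have a1 : ({x, h x, y, h y} : Finset X).card ≤ 4 := Finset.card_le_four
    have a2 : ({z, h z} : Finset X).card ≤ 2 := Finset.card_le_two
    omega)
  simp only [Finset.mem_union, Finset.mem_insert, Finset.mem_singleton, not_or] at hw
  obtain ⟨⟨w1, w2, w3, w4⟩, w5, w6⟩ := hw
  have hwm : h w ≠ w := fun e => three w hwl e
  -- the primed points differ from the others
  have q1 : h z ≠ x := fun e => z2 (by rw [← e, h2])
  have q2 : h z ≠ y := fun e => z4 (by rw [← e, h2])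
  have q3 : h w ≠ x := fun e => w2 (by rw [← e, h2])
  have q4 : h w ≠ y := fun e => w4 (by rw [← e, h2])
  have q5 : h w ≠ z := fun e => w6 (by rw [← e, h2])
  have hg : swap x y * (swap y z * swap z w) ∈ H :=
    H.mul_mem (hH.swap x y hx3 hl.symm) (H.mul_mem (hH.swap y z (by omega) (by omega))
      (hH.swap z w (by omega) (by omega)))
  have gx : (swap x y * (swap y z * swap z w)) x = y := by
    rw [Perm.mul_apply, Perm.mul_apply, swap_apply_of_ne_of_ne (Ne.symm z1) (Ne.symm w1),
      swap_apply_of_ne_of_ne (Ne.symm c1) (Ne.symm z1), swap_apply_left]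
  have gy : (swap x y * (swap y z * swap z w)) y = z := by
    rw [Perm.mul_apply, Perm.mul_apply, swap_apply_of_ne_of_ne (Ne.symm z3) (Ne.symm w3),
      swap_apply_left, swap_apply_of_ne_of_ne z1 z3]
  have gz : (swap x y * (swap y z * swap z w)) z = w := by
    rw [Perm.mul_apply, Perm.mul_apply, swap_apply_left,
      swap_apply_of_ne_of_ne w3 w5, swap_apply_of_ne_of_ne w1 w3]
  have gw : (swap x y * (swap y z * swap z w)) w = x := by
    rw [Perm.mul_apply, Perm.mul_apply, swap_apply_right, swap_apply_right, swap_apply_right]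
  have gx' : (swap x y * (swap y z * swap z w)) (h x) = h x := by
    rw [Perm.mul_apply, Perm.mul_apply, swap_apply_of_ne_of_ne (Ne.symm z2) (Ne.symm w2),
      swap_apply_of_ne_of_ne (Ne.symm c2) (Ne.symm z2), swap_apply_of_ne_of_ne hx (Ne.symm c2)]
  have gy' : (swap x y * (swap y z * swap z w)) (h y) = h y := by
    rw [Perm.mul_apply, Perm.mul_apply, swap_apply_of_ne_of_ne (Ne.symm z4) (Ne.symm w4),
      swap_apply_of_ne_of_ne hy (Ne.symm z4), swap_apply_of_ne_of_ne c3 hy]
  have gz' : (swap x y * (swap y z * swap z w)) (h z) = h z := by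
    rw [Perm.mul_apply, Perm.mul_apply, swap_apply_of_ne_of_ne hzm (Ne.symm w6),
      swap_apply_of_ne_of_ne q2 hzm, swap_apply_of_ne_of_ne q1 q2]
  have gw' : (swap x y * (swap y z * swap z w)) (h w) = h w := by
    rw [Perm.mul_apply, Perm.mul_apply, swap_apply_of_ne_of_ne q5 hwm,
      swap_apply_of_ne_of_ne q4 q5, swap_apply_of_ne_of_ne q3 q4]
  generalize swap x y * (swap y z * swap z w) = g at hg gx gy gz gw gx' gy' gz' gw'
  have k1 : (h * (g * h * g⁻¹)) x = w := by
    have := conj_apply g h w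
    rw [gw, gw'] at this
    rw [Perm.mul_apply, this, h2]
  have k2 : (h * (g * h * g⁻¹)) w = z := by
    have := conj_apply g h z
    rw [gz, gz'] at this
    rw [Perm.mul_apply, this, h2]
  have k3 : (h * (g * h * g⁻¹)) z = y := by
    have := conj_apply g h y
    rw [gy, gy'] at this
    rw [Perm.mul_apply, this, h2]
  refine T3_eval h3 g hg (p := x) (q := x) ?_ ?_
  · rw [k1, k2]; exact z1
  · rw [k1, k2, k3]; exact c1

include hH hF hh h2 h3 in
/-- only one fibre is moved -/
theorem one_fibre {x y : X} (hx : h x ≠ x) (hy : h y ≠ y) : ℓ y = ℓ x := by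
  by_contra hl
  have hx3 : 3 ≤ ℓ x := by
    by_contra hlt
    exact hx (hH.fix h hh x (by omega))
  have hy3 : 3 ≤ ℓ y := by
    by_contra hlt
    exact hy (hH.fix h hh y (by omega))
  have hlx : ℓ (h x) = ℓ x := hH.len h hh x
  have hly : ℓ (h y) = ℓ y := hH.len h hh y
  obtain ⟨z, hz, hzl⟩ := hF x hx3 {x, h x} (Finset.card_le_two.trans (by norm_num))
  obtain ⟨u, hu, hul⟩ := hF y hy3 {y, h y} (Finset.card_le_two.trans (by norm_num))
  obtain ⟨v, hv, hvl⟩ := hF y hy3 {y, h y, u} (Finset.card_le_three.trans (by norm_num))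
  simp only [Finset.mem_insert, Finset.mem_singleton, not_or] at hz hu hv
  obtain ⟨z1, z2⟩ := hz
  obtain ⟨u1, u2⟩ := hu
  obtain ⟨v1, v2, v3⟩ := hv
  have hzf : h z = z := by
    by_contra hm
    rcases same_fibre hH hF hh h2 h3 hx hm hzl with e | e
    · exact z1 e
    · exact z2 e
  have huf : h u = u := by
    by_contra hm
    rcases same_fibre hH hF hh h2 h3 hy hm hul with e | e
    · exact u1 e
    · exact u2 e
  have hvf : h v = v := by
    by_contra hm
    rcases same_fibre hH hF hh h2 h3 hy hm hvl with e | e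
    · exact v1 e
    · exact v2 e
  have ne : ∀ a b : X, ℓ a = ℓ x → ℓ b = ℓ y → a ≠ b := fun a b ha hb e => hl (by
    rw [← hb, ← e, ha])
  have hg : swap x z * (swap y u * swap (h y) v) ∈ H :=
    H.mul_mem (hH.swap x z hx3 hzl.symm) (H.mul_mem (hH.swap y u hy3 hul.symm)
      (hH.swap (h y) v (by omega) (by omega)))
  have gx : (swap x z * (swap y u * swap (h y) v)) x = z := by
    rw [Perm.mul_apply, Perm.mul_apply, swap_apply_of_ne_of_ne (ne _ _ rfl hly) (ne _ _ rfl hvl),
      swap_apply_of_ne_of_ne (ne _ _ rfl rfl) (ne _ _ rfl hul), swap_apply_left]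
  have gz : (swap x z * (swap y u * swap (h y) v)) z = x := by
    rw [Perm.mul_apply, Perm.mul_apply, swap_apply_of_ne_of_ne (ne _ _ hzl hly) (ne _ _ hzl hvl),
      swap_apply_of_ne_of_ne (ne _ _ hzl rfl) (ne _ _ hzl hul), swap_apply_right]
  have gx' : (swap x z * (swap y u * swap (h y) v)) (h x) = h x := by
    rw [Perm.mul_apply, Perm.mul_apply, swap_apply_of_ne_of_ne (ne _ _ hlx hly) (ne _ _ hlx hvl),
      swap_apply_of_ne_of_ne (ne _ _ hlx rfl) (ne _ _ hlx hul),
      swap_apply_of_ne_of_ne hx (Ne.symm z2)]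
  have gy : (swap x z * (swap y u * swap (h y) v)) y = u := by
    rw [Perm.mul_apply, Perm.mul_apply, swap_apply_of_ne_of_ne (Ne.symm hy) (Ne.symm v1),
      swap_apply_left, swap_apply_of_ne_of_ne (ne _ _ rfl hul).symm (ne _ _ hzl hul).symm]
  have gu : (swap x z * (swap y u * swap (h y) v)) u = y := by
    rw [Perm.mul_apply, Perm.mul_apply, swap_apply_of_ne_of_ne u2 (Ne.symm v3),
      swap_apply_right, swap_apply_of_ne_of_ne (ne _ _ rfl rfl).symm (ne _ _ hzl rfl).symm]
  have gv : (swap x z * (swap y u * swap (h y) v)) v = h y := by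
    rw [Perm.mul_apply, Perm.mul_apply, swap_apply_right,
      swap_apply_of_ne_of_ne hy (Ne.symm u2),
      swap_apply_of_ne_of_ne (ne _ _ rfl hly).symm (ne _ _ hzl hly).symm]
  generalize swap x z * (swap y u * swap (h y) v) = g at hg gx gz gx' gy gu gv
  have k1 : (h * (g * h * g⁻¹)) x = h x := by
    have := conj_apply g h z
    rw [gz, hzf, gz] at this
    rw [Perm.mul_apply, this]
  have k2 : (h * (g * h * g⁻¹)) (h x) = z := by
    have := conj_apply g h (h x)
    rw [gx', h2, gx] at this
    rw [Perm.mul_apply, this, hzf]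
  have l1 : (h * (g * h * g⁻¹)) y = h y := by
    have := conj_apply g h u
    rw [gu, huf, gu] at this
    rw [Perm.mul_apply, this]
  -- the conjugate fixes `h y`
  have l2 : (g * h * g⁻¹) (h y) = h y := by
    have := conj_apply g h v
    rw [gv, hvf, gv] at this
    exact this
  have l3 : (h * (g * h * g⁻¹)) (h y) = y := by
    rw [Perm.mul_apply, l2, h2]
  refine T3_eval h3 g hg (p := x) (q := y) ?_ ?_
  · rw [k1, k2]; exact z1
  · rw [l1, l3, l1]; exact hy

end

/-- A `3`-transposition of such a group is a transposition. -/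
theorem T3_swap {H : Subgroup (Perm X)} (hH : Big ℓ H) (hF : Fat ℓ) (h : H) (ht : T3 h) :
    ∃ x y, x ≠ y ∧ 3 ≤ ℓ x ∧ ℓ x = ℓ y ∧ (h : Perm X) = swap x y := by
  obtain ⟨h1, h2, h3⟩ := ht
  have h2' : ∀ p, (h : Perm X) ((h : Perm X) p) = p := by
    intro p
    have := congrArg (fun e : H => (e : Perm X) p) h2
    exact this
  have h3' : ∀ g ∈ H, ((h : Perm X) * (g * (h : Perm X) * g⁻¹)) ^ 2 = 1 ∨
      ((h : Perm X) * (g * (h : Perm X) * g⁻¹)) ^ 3 = 1 := by
    intro g hg
    rcases h3 ⟨g, hg⟩ with e | e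
    · left; exact congrArg Subtype.val e
    · right; exact congrArg Subtype.val e
  obtain ⟨x, hx⟩ : ∃ x, (h : Perm X) x ≠ x := by
    by_contra hc
    push Not at hc
    exact h1 (Subtype.ext (Equiv.ext hc))
  have hx3 : 3 ≤ ℓ x := by
    by_contra hlt
    exact hx (hH.fix _ h.2 x (by omega))
  refine ⟨x, (h : Perm X) x, Ne.symm hx, hx3, (hH.len _ h.2 x).symm, Equiv.ext fun z => ?_⟩
  by_cases hz : (h : Perm X) z = z
  · rw [hz, swap_apply_of_ne_of_ne]
    · rintro rfl; exact hx hz
    · intro e
      rw [e, h2'] at hz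
      exact hx hz.symm
  · rcases same_fibre hH hF h.2 h2' h3' hx hz (one_fibre hH hF h.2 h2' h3' hx hz) with e | e
    · rw [e, swap_apply_left]
    · rw [e, swap_apply_right, h2']

end Pool.Agent.W903.Rig
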